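import Mathlib

set_option autoImplicit false

namespace Pool.Agent.H.MP_dd1f31_an
open Polynomial Finset Complex Filter Topology ComplexConjugate MeasureTheory

lemma ek (a : ℕ → ℝ) (N : ℕ) (h0 : 0 ≤ a 0) (hm : ∀ j < N, a j ≤ a (j + 1)) (hN : 0 < a N) {w : ℂ}
    (hw : 1 < ‖w‖) : ∑ j ∈ range (N + 1), (a j : ℂ) * w ^ j ≠ 0 := by
  have key : ∀ n ≤ N, 0 ≤ a n ∧
      ‖(w - 1) * ∑ j ∈ range (n + 1), (a j : ℂ) * w ^ j - a n * w ^ (n + 1)‖ ≤ a n * ‖w‖ ^ n := by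
    intro n hn
    induction n with
    | zero =>
      refine ⟨h0, le_of_eq ?_⟩
      have : (w - 1) * ∑ j ∈ range (0 + 1), (a j : ℂ) * w ^ j - a 0 * w ^ (0 + 1) = -(a 0 : ℂ) := by simp; ring
      rw [this, norm_neg, norm_real, Real.norm_of_nonneg h0, pow_zero, mul_one]
    | succ n ih =>
      obtain ⟨i0, i1⟩ := ih (by omega)
      have h1 := hm n (by omega)
      refine ⟨i0.trans h1, ?_⟩
      have : (w - 1) * ∑ j ∈ range (n + 1 + 1), (a j : ℂ) * w ^ j - a (n + 1) * w ^ (n + 1 + 1) =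
          ((w - 1) * ∑ j ∈ range (n + 1), (a j : ℂ) * w ^ j - a n * w ^ (n + 1)) -
            ((a (n + 1) - a n : ℝ) : ℂ) * w ^ (n + 1) := by
        rw [sum_range_succ _ (n + 1)]; push_cast; ring
      rw [this]
      refine (norm_sub_le _ _).trans ?_
      rw [norm_mul, norm_real, Real.norm_of_nonneg (sub_nonneg.2 h1), norm_pow]
      have : a n * ‖w‖ ^ n ≤ a n * ‖w‖ ^ (n + 1) :=
        mul_le_mul_of_nonneg_left (pow_le_pow_right₀ hw.le (by omega)) i0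
      linarith
  intro h
  have := (key N le_rfl).2
  rw [h, mul_zero, zero_sub, norm_neg, norm_mul, norm_real, Real.norm_of_nonneg hN.le, norm_pow, pow_succ] at this
  have h2 : 0 < a N * ‖w‖ ^ N := by positivity
  nlinarith

lemma rev (a : ℕ → ℝ) (N : ℕ) (h0 : 0 ≤ a 0) (hm : ∀ j < N, a j ≤ a (j + 1)) (hN : 0 < a N) {w : ℂ}
    (hw : 1 < ‖w‖) :
    ‖∑ j ∈ range (N + 1), (a j : ℂ) * w ^ (N - j)‖ ≤ ‖∑ j ∈ range (N + 1), (a j : ℂ) * w ^ j‖ := by
  let P : ℂ[X] := ∑ j ∈ range (N + 1), monomial j (a j : ℂ)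
  have ev : ∀ z, P.eval z = ∑ j ∈ range (N + 1), (a j : ℂ) * z ^ j := fun z => by
    simp [P, eval_finsetSum]
  have cN : P.coeff N = a N := by simp [P, coeff_monomial]
  have dN : P.natDegree = N := natDegree_eq_of_le_of_coeff_ne_zero
    (natDegree_sum_le_of_forall_le _ _ fun j hj => (natDegree_monomial_le _).trans (by
      simpa [Nat.lt_succ_iff] using hj)) (by rw [cN]; exact_mod_cast hN.ne')
  have P0 : P ≠ 0 := fun h => by rw [h, coeff_zero] at cN; exact hN.ne' (by exact_mod_cast cN.symm)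
  have cd : Multiset.card P.roots = P.natDegree := IsAlgClosed.card_roots_eq_natDegree
  have fac : ∀ z, P.eval z = P.leadingCoeff * (P.roots.map fun r => z - r).prod := fun z => by
    conv_lhs => rw [← C_leadingCoeff_mul_prod_multiset_X_sub_C cd]
    simp [eval_multiset_prod]
  have rt : ∀ r ∈ P.roots, ‖r‖ ≤ 1 := fun r hr => not_lt.1 fun h =>
    ek a N h0 hm hN h (by rw [← ev]; exact isRoot_of_mem_roots hr)
  have w0 : conj w ≠ 0 := by
    rw [_root_.map_ne_zero]; intro h; rw [h, norm_zero] at hw; linarith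
  have e1 : ∑ j ∈ range (N + 1), (a j : ℂ) * w ^ (N - j) = conj (conj w ^ N * P.eval (conj w)⁻¹) := by
    rw [ev, mul_sum, map_sum]
    refine sum_congr rfl fun j hj => ?_
    have hj : j ≤ N := Nat.lt_succ_iff.1 (mem_range.1 hj)
    rw [mul_left_comm, inv_pow, ← pow_sub₀ _ w0 hj]
    simp
  rw [e1, ← ev, RCLike.norm_conj, fac, fac, mul_left_comm, norm_mul, norm_mul P.leadingCoeff]
  refine mul_le_mul_of_nonneg_left ?_ (norm_nonneg _)
  rw [← dN, ← cd]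
  generalize P.roots = s at rt
  induction s using Multiset.induction_on with
  | empty => simp
  | cons r s ih =>
    have h1 := ih fun x hx => rt x (Multiset.mem_cons_of_mem hx)
    have h2 := rt r (Multiset.mem_cons_self _ _)
    rw [Multiset.card_cons, Multiset.map_cons, Multiset.map_cons, Multiset.prod_cons, Multiset.prod_cons, pow_succ',
      mul_mul_mul_comm, norm_mul, norm_mul (w - r)]
    refine mul_le_mul ?_ h1 (norm_nonneg _) (norm_nonneg _)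
    rw [mul_sub, mul_inv_cancel₀ w0]
    refine abs_le_of_sq_le_sq' ?_ (norm_nonneg _) |>.2
    have h3 : 1 ≤ ‖w‖ ^ 2 := one_le_pow₀ hw.le
    have h4 : ‖r‖ ^ 2 ≤ 1 := pow_le_one₀ (norm_nonneg _) h2
    rw [Complex.sq_norm, Complex.normSq_apply] at h3 h4
    rw [Complex.sq_norm, Complex.sq_norm, Complex.normSq_apply, Complex.normSq_apply]
    simp only [sub_re, one_re, mul_re, conj_re, conj_im, sub_im, one_im, mul_im]
    nlinarith [mul_nonneg (sub_nonneg.2 h3) (sub_nonneg.2 h4)]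

lemma hb (a : ℕ → ℝ) (N : ℕ) (h0 : 0 ≤ a 0) (hm : ∀ j < N, a j ≤ a (j + 1)) (hN : 0 < a N) (N0 : 0 < N)
    {u v : ℂ} (h : ‖v‖ < ‖u‖) :
    ‖∑ j ∈ range (N + 1), (a j : ℂ) * (v ^ (N + j) * u ^ (N - j))‖ <
      ‖∑ j ∈ range (N + 1), (a j : ℂ) * (u ^ (N + j) * v ^ (N - j))‖ := by
  by_cases v0 : v = 0
  · subst v0
    rw [sum_eq_zero fun j _ => by simp [N0.ne'], norm_zero, norm_pos_iff, sum_range_succ,
      sum_eq_zero fun j hj => by simp [(Nat.sub_pos_of_lt (mem_range.1 hj)).ne']]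
    have : u ≠ 0 := fun e => by simp [e] at h
    have : (a N : ℂ) ≠ 0 := by exact_mod_cast hN.ne'
    simp [*]
  obtain ⟨w, rfl⟩ : ∃ w, u = w * v := ⟨u / v, by field_simp⟩
  have vp := norm_pos_iff.2 v0
  have hw : 1 < ‖w‖ := by rw [norm_mul] at h; nlinarith
  have e1 : ∑ j ∈ range (N + 1), (a j : ℂ) * (v ^ (N + j) * (w * v) ^ (N - j)) =
      v ^ (2 * N) * ∑ j ∈ range (N + 1), (a j : ℂ) * w ^ (N - j) := by
    rw [mul_sum]
    refine sum_congr rfl fun j hj => ?_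
    obtain ⟨i, rfl⟩ := Nat.exists_eq_add_of_le (Nat.lt_succ_iff.1 (mem_range.1 hj))
    rw [Nat.add_sub_cancel_left]; ring
  have e2 : ∑ j ∈ range (N + 1), (a j : ℂ) * ((w * v) ^ (N + j) * v ^ (N - j)) =
      v ^ (2 * N) * (w ^ N * ∑ j ∈ range (N + 1), (a j : ℂ) * w ^ j) := by
    rw [mul_sum, mul_sum]
    refine sum_congr rfl fun j hj => ?_
    obtain ⟨i, rfl⟩ := Nat.exists_eq_add_of_le (Nat.lt_succ_iff.1 (mem_range.1 hj))
    rw [Nat.add_sub_cancel_left]; ring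
  rw [e1, e2, norm_mul, norm_mul, norm_mul]
  refine mul_lt_mul_of_pos_left ((rev a N h0 hm hN hw).trans_lt ?_) (by rw [norm_pow]; positivity)
  refine lt_mul_of_one_lt_left (norm_pos_iff.2 (ek a N h0 hm hN hw)) ?_
  rw [norm_pow]; exact one_lt_pow₀ hw N0.ne'

lemma exAB (m : ℕ) : ∃ A B : ℝ[X], ∀ z : ℂ, (1 + I * z) ^ m = aeval (z ^ 2) A + I * z * aeval (z ^ 2) B := by
  induction m with
  | zero => exact ⟨1, 0, fun z => by simp⟩
  | succ m ih =>
    obtain ⟨A, B, h⟩ := ih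
    refine ⟨A - X * B, A + B, fun z => ?_⟩
    rw [pow_succ, h]
    simp only [map_sub, map_mul, map_add, aeval_X]
    linear_combination (z ^ 2 * aeval (z ^ 2) B) * I_mul_I

noncomputable def E (a : ℕ → ℝ) (N : ℕ) (z : ℂ) : ℂ :=
  ∑ j ∈ range (N + 1), (a j : ℂ) * ((1 + I * z) ^ (N + j) * (1 - I * z) ^ (N - j))

lemma E_neg (a : ℕ → ℝ) (N : ℕ) (z : ℂ) :
    E a N (-z) = ∑ j ∈ range (N + 1), (a j : ℂ) * ((1 - I * z) ^ (N + j) * (1 + I * z) ^ (N - j)) := by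
  simp [E, sub_eq_add_neg]

lemma exq (a : ℕ → ℝ) (N : ℕ) : ∃ A B : ℝ[X], ∀ z : ℂ, E a N z = aeval (z ^ 2) A + I * z * aeval (z ^ 2) B := by
  choose A B h using exAB
  refine ⟨∑ j ∈ range (N + 1), C (a j) * ((1 + X) ^ (N - j) * A (2 * j)),
    ∑ j ∈ range (N + 1), C (a j) * ((1 + X) ^ (N - j) * B (2 * j)), fun z => ?_⟩
  rw [E, map_sum, map_sum, mul_sum, ← sum_add_distrib]
  refine sum_congr rfl fun j hj => ?_
  obtain ⟨i, rfl⟩ := Nat.exists_eq_add_of_le (Nat.lt_succ_iff.1 (mem_range.1 hj))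
  have e : (1 + I * z) * (1 - I * z) = 1 + z ^ 2 := by linear_combination (-z ^ 2) * I_mul_I
  rw [Nat.add_sub_cancel_left, show j + i + j = 2 * j + i by ring, pow_add, mul_assoc, ← mul_pow, e, h]
  simp only [map_mul, map_pow, map_add, map_one, aeval_X, aeval_C, coe_algebraMap]
  ring

lemma E_real (a : ℕ → ℝ) (N : ℕ) (h0 : 0 ≤ a 0) (hm : ∀ j < N, a j ≤ a (j + 1)) (hN : 0 < a N) (N0 : 0 < N)
    {z : ℂ} (h : ‖E a N z‖ = ‖E a N (-z)‖) : z.im = 0 := by
  have e : ‖1 - I * z‖ ^ 2 - ‖1 + I * z‖ ^ 2 = 4 * z.im := by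
    rw [Complex.sq_norm, Complex.sq_norm, Complex.normSq_apply, Complex.normSq_apply]; simp; ring
  rw [E_neg, E] at h
  rcases lt_trichotomy ‖1 - I * z‖ ‖1 + I * z‖ with h1 | h1 | h1
  · exact absurd h (hb a N h0 hm hN N0 h1).ne'
  · rw [h1] at e; linarith
  · exact absurd h (hb a N h0 hm hN N0 h1).ne

lemma apx {N j : ℕ} (hj : j ≤ N) {R v : ℝ} {z : ℂ} (hz : ‖z‖ ≤ R) (hN : R + R ^ 2 + 1 ≤ N) (v0 : 0 ≤ v) (v1 : v ≤ 1)
    (hv : |j / N - v| ≤ 1 / N) :
    ‖(1 + I * (z / (2 * N))) ^ (N + j) * (1 - I * (z / (2 * N))) ^ (N - j) - exp (I * z * v)‖ ≤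
      Real.exp R * (2 * ((R + R ^ 2) / N)) := by
  have R0 : 0 ≤ R := (norm_nonneg _).trans hz
  have Np : (0 : ℝ) < N := by nlinarith
  have Nc : (N : ℂ) ≠ 0 := by exact_mod_cast Np.ne'
  obtain ⟨t, ht⟩ : ∃ t, t = I * (z / (2 * N)) := ⟨_, rfl⟩
  have nt : ‖t‖ ≤ R / (2 * N) := by
    rw [ht, norm_mul, norm_I, one_mul, norm_div, norm_mul, norm_natCast, Complex.norm_two]
    exact div_le_div_of_nonneg_right hz (by positivity)
  have t2 : ‖t‖ ≤ 1 / 2 := nt.trans (by rw [div_le_div_iff₀ (by positivity) two_pos]; nlinarith)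
  have lg : ∀ s : ℂ, ‖s‖ = ‖t‖ → 1 + s = exp (log (1 + s)) ∧ ‖log (1 + s) - s‖ ≤ ‖t‖ ^ 2 := fun s hs => by
    refine ⟨(exp_log fun h => ?_).symm, (norm_log_one_add_sub_self_le (by linarith)).trans ?_⟩
    · rw [show s = -1 by linear_combination h] at hs
      simp at hs; linarith
    · rw [hs, mul_div_assoc]
      refine mul_le_of_le_one_right (by positivity) ?_
      rw [div_le_one two_pos, inv_le_comm₀ (by linarith) two_pos]; linarith
  obtain ⟨a1, a2⟩ := lg t rfl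
  obtain ⟨b1, b2⟩ := lg (-t) (norm_neg t)
  rw [← ht, sub_eq_add_neg 1 t, a1, b1, ← exp_nat_mul, ← exp_nat_mul, ← exp_add]
  obtain ⟨d, hd⟩ : ∃ d, d = ((N + j : ℕ) : ℂ) * log (1 + t) + ((N - j : ℕ) : ℂ) * log (1 + -t) - I * z * v := ⟨_, rfl⟩
  have e1 : d = ((N + j : ℕ) : ℂ) * (log (1 + t) - t) + ((N - j : ℕ) : ℂ) * (log (1 + -t) - -t) +
      I * z * ((j / N - v : ℝ) : ℂ) := by
    rw [hd]; push_cast [Nat.cast_sub hj]
    have : 2 * (j : ℂ) * t = I * z * (j / N) := by rw [ht]; field_simp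
    linear_combination this
  have nd : ‖d‖ ≤ (R + R ^ 2) / N := by
    rw [e1]
    refine (norm_add₃_le).trans ?_
    rw [norm_mul, norm_mul, norm_mul, norm_mul, norm_natCast, norm_natCast, norm_I, one_mul, norm_real,
      Real.norm_eq_abs]
    have h1 := mul_le_mul_of_nonneg_left a2 (Nat.cast_nonneg (α := ℝ) (N + j))
    have h2 := mul_le_mul_of_nonneg_left b2 (Nat.cast_nonneg (α := ℝ) (N - j))
    have h3 := mul_le_mul hz hv (abs_nonneg _) R0
    have h4 : ‖t‖ ^ 2 ≤ (R / (2 * N)) ^ 2 := pow_le_pow_left₀ (norm_nonneg _) nt 2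
    have h5 : ((N + j : ℕ) : ℝ) * ‖t‖ ^ 2 + ((N - j : ℕ) : ℝ) * ‖t‖ ^ 2 = 2 * N * ‖t‖ ^ 2 := by
      push_cast [Nat.cast_sub hj]; ring
    have h6 : 2 * N * (R / (2 * N)) ^ 2 = R ^ 2 / N / 2 := by field_simp
    have h7 : (R + R ^ 2) / N = R * (1 / N) + R ^ 2 / N := by ring
    have h8 : 0 ≤ R ^ 2 / N := by positivity
    nlinarith [mul_le_mul_of_nonneg_left h4 (by positivity : (0 : ℝ) ≤ 2 * N)]
  have e2 : exp (((N + j : ℕ) : ℂ) * log (1 + t) + ((N - j : ℕ) : ℂ) * log (1 + -t)) - exp (I * z * v) =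
      exp (I * z * v) * (exp d - 1) := by rw [mul_sub, ← exp_add, hd]; ring_nf
  rw [e2, norm_mul]
  have d1 : ‖d‖ ≤ 1 := nd.trans (by rw [div_le_one Np]; linarith)
  refine mul_le_mul ((norm_exp_le_exp_norm _).trans (Real.exp_le_exp.2 ?_))
    ((norm_exp_sub_one_le d1).trans (by linarith)) (norm_nonneg _) (by positivity)
  rw [norm_mul, norm_mul, norm_I, one_mul, norm_real, Real.norm_of_nonneg v0]
  nlinarith [norm_nonneg z]

noncomputable def cell (ψ : ℝ → ℝ) (N : ℕ) : ℕ → ℝ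
  | 0 => 0
  | j + 1 => ∫ v in (j / N : ℝ)..((j + 1 : ℕ) / N : ℝ), ψ v

variable {ψ : ℝ → ℝ} (hi : IntervalIntegrable ψ volume 0 1) (hm : MonotoneOn ψ (Set.Ioo 0 1))
  (hp : ∀ v ∈ Set.Ioo (0 : ℝ) 1, 0 < ψ v)

lemma sub01 {N j : ℕ} (hj : j < N) : (0 : ℝ) ≤ j / N ∧ (j / N : ℝ) < (j + 1 : ℕ) / N ∧ ((j + 1 : ℕ) / N : ℝ) ≤ 1 := by
  have Np : (0 : ℝ) < N := by exact_mod_cast (by omega : 0 < N)
  refine ⟨by positivity, div_lt_div_of_pos_right (by simp) Np, ?_⟩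
  rw [div_le_one Np]; exact_mod_cast hj

include hi in
lemma ii {N j : ℕ} (hj : j < N) : IntervalIntegrable ψ volume (j / N : ℝ) ((j + 1 : ℕ) / N : ℝ) := by
  obtain ⟨a, b, c⟩ := sub01 hj
  refine hi.mono_set ?_
  rw [Set.uIcc_of_le b.le, Set.uIcc_of_le zero_le_one]
  exact Set.Icc_subset_Icc a c

include hi hp in
lemma cell_pos {N j : ℕ} (hj : j < N) : 0 < cell ψ N (j + 1) := by
  obtain ⟨a, b, c⟩ := sub01 hj
  exact intervalIntegral.intervalIntegral_pos_of_pos_on (ii hi hj)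
    (fun v hv => hp v ⟨a.trans_lt hv.1, hv.2.trans_le c⟩) b

include hi hm hp in
lemma cell_mono {N : ℕ} : ∀ j < N, cell ψ N j ≤ cell ψ N (j + 1) := by
  intro j hj
  cases j with
  | zero => exact (cell_pos hi hp hj).le
  | succ j =>
    obtain ⟨a, b, c⟩ := sub01 (by omega : j < N)
    obtain ⟨a', b', c'⟩ := sub01 hj
    have m : ((j + 1 : ℕ) / N : ℝ) ∈ Set.Ioo (0 : ℝ) 1 := ⟨a.trans_lt b, b'.trans_le c'⟩
    have h1 : cell ψ N (j + 1) ≤ ∫ _ in (j / N : ℝ)..((j + 1 : ℕ) / N : ℝ), ψ ((j + 1 : ℕ) / N) :=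
      intervalIntegral.integral_mono_on_of_le_Ioo b.le (ii hi (by omega)) intervalIntegrable_const
        fun v hv => hm ⟨a.trans_lt hv.1, hv.2.trans m.2⟩ m hv.2.le
    have h2 : ∫ _ in ((j + 1 : ℕ) / N : ℝ)..((j + 1 + 1 : ℕ) / N : ℝ), ψ ((j + 1 : ℕ) / N) ≤ cell ψ N (j + 1 + 1) :=
      intervalIntegral.integral_mono_on_of_le_Ioo b'.le intervalIntegrable_const (ii hi hj)
        fun v hv => hm m ⟨m.1.trans hv.1, hv.2.trans_le c'⟩ hv.1.le
    rw [intervalIntegral.integral_const] at h1 h2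
    refine h1.trans (le_trans (le_of_eq ?_) h2)
    congr 1; push_cast; ring

include hi hp in
lemma E_apx {N : ℕ} {R : ℝ} {z : ℂ} (hz : ‖z‖ ≤ R) (hN : R + R ^ 2 + 1 ≤ N) :
    ‖E (cell ψ N) N (z / (2 * N)) - ∫ v in (0 : ℝ)..1, (ψ v : ℂ) * exp (I * z * v)‖ ≤
      (∫ v in (0 : ℝ)..1, ψ v) * (Real.exp R * (2 * ((R + R ^ 2) / N))) := by
  have R0 : 0 ≤ R := (norm_nonneg _).trans hz
  have Np : (0 : ℝ) < N := by nlinarith
  have ic : ∀ j < N, ∀ g : ℝ → ℂ, Continuous g →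
      IntervalIntegrable (fun v => (ψ v : ℂ) * g v) volume (j / N : ℝ) ((j + 1 : ℕ) / N : ℝ) := fun j hj g hg =>
    IntervalIntegrable.mul_continuousOn ⟨(ii hi hj).1.ofReal, (ii hi hj).2.ofReal⟩ hg.continuousOn
  have s1 := intervalIntegral.sum_integral_adjacent_intervals (a := fun j : ℕ => (j / N : ℝ)) (n := N)
    fun j hj => ic j hj (fun v => exp (I * z * v)) (by fun_prop)
  have s2 := intervalIntegral.sum_integral_adjacent_intervals (a := fun j : ℕ => (j / N : ℝ)) (n := N)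
    fun j hj => ii hi hj
  simp only [Nat.cast_zero, zero_div, div_self Np.ne'] at s1 s2
  rw [← s1, ← s2, E, sum_range_succ', cell, ofReal_zero, zero_mul, add_zero, ← sum_sub_distrib, sum_mul]
  refine (norm_sum_le _ _).trans (sum_le_sum fun j hj => ?_)
  have hj := mem_range.1 hj
  obtain ⟨a, b, c⟩ := sub01 hj
  rw [cell, ← intervalIntegral.integral_ofReal, ← intervalIntegral.integral_mul_const,
    ← intervalIntegral.integral_sub (ic j hj _ continuous_const) (ic j hj _ (by fun_prop)),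
    ← intervalIntegral.integral_mul_const]
  refine intervalIntegral.norm_integral_le_of_norm_le b.le ?_ ((ii hi hj).mul_const _)
  have : ∀ᵐ v : ℝ, v ≠ 1 := by simp [ae_iff]
  filter_upwards [this] with v v1 hv
  have v2 : v < 1 := lt_of_le_of_ne (hv.2.trans c) v1
  rw [← mul_sub, norm_mul, norm_real, Real.norm_of_nonneg (hp v ⟨a.trans_lt hv.1, v2⟩).le]
  refine mul_le_mul_of_nonneg_left (apx hj hz hN (a.trans hv.1.le) v2.le ?_) (hp v ⟨a.trans_lt hv.1, v2⟩).le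
  have e : ((j + 1 : ℕ) / N : ℝ) = j / N + 1 / N := by push_cast; ring
  rw [abs_of_nonneg (sub_nonneg.2 hv.2)]
  linarith [hv.1]

include hi hm hp in
theorem polya : ∃ A B : ℕ → ℝ[X],
    (∀ n (x : ℂ), aeval x (A n) = 0 ∨ aeval x (B n) = 0 → x.im = 0 ∧ x.re ≤ 0) ∧
    ∀ R ε : ℝ, 0 < ε → ∀ᶠ n in atTop, ∀ z : ℂ, ‖z‖ ≤ R →
      ‖aeval (-z ^ 2 / 4) (A n) - ∫ v in (0 : ℝ)..1, (ψ v : ℂ) * cos (z * v)‖ < ε ∧
      ‖z * aeval (-z ^ 2 / 4) (B n) - ∫ v in (0 : ℝ)..1, (ψ v : ℂ) * sin (z * v)‖ < ε := by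
  choose A B h using fun N => exq (cell ψ N) N
  let L : ℕ → ℝ[X] := fun n => C (-(((n + 1 : ℕ) : ℝ) ^ 2)⁻¹) * X
  refine ⟨fun n => (A (n + 1)).comp (L n), fun n => C (2 * ((n + 1 : ℕ) : ℝ))⁻¹ * (B (n + 1)).comp (L n),
    fun n x hx => ?_, fun R ε e0 => ?_⟩
  · obtain ⟨z, hz⟩ := IsAlgClosed.exists_pow_nat_eq (aeval x (L n)) two_pos
    have n0 : (0 : ℝ) < (n + 1 : ℕ) := by positivity
    have zi : z.im = 0 := by
      refine E_real _ _ le_rfl (cell_mono hi hm hp) (cell_pos hi hp (Nat.lt_succ_self n)) n.succ_pos ?_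
      rw [h, h, neg_sq, hz]
      rcases hx with hx | hx
      · rw [aeval_comp] at hx
        rw [hx]; simp
      · rw [map_mul, aeval_comp, aeval_C, mul_eq_zero] at hx
        rw [hx.resolve_left (by simpa using (by exact_mod_cast n.succ_ne_zero : (n : ℂ) + 1 ≠ 0))]; simp
    have nc : ((n + 1 : ℕ) : ℂ) ≠ 0 := by exact_mod_cast n.succ_ne_zero
    have e : x = ((-(z.re * (n + 1 : ℕ)) ^ 2 : ℝ) : ℂ) := by
      have e1 : z = z.re := Complex.ext rfl (by simpa using zi)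
      simp only [L, map_mul, aeval_C, aeval_X, coe_algebraMap] at hz
      rw [e1] at hz
      push_cast at hz nc ⊢
      field_simp at hz
      linear_combination hz
    rw [e, ofReal_im, ofReal_re]
    exact ⟨rfl, neg_nonpos.2 (sq_nonneg _)⟩
  · have t1 : Tendsto (fun n : ℕ => (∫ v in (0 : ℝ)..1, ψ v) * (Real.exp R * (2 * ((R + R ^ 2) / (n + 1 : ℕ)))))
        atTop (𝓝 ((∫ v in (0 : ℝ)..1, ψ v) * (Real.exp R * (2 * 0)))) :=
      ((((tendsto_const_div_atTop_nhds_zero_nat _).comp (tendsto_add_atTop_nat 1)).const_mul _).const_mul _).const_mul _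
    rw [mul_zero, mul_zero, mul_zero] at t1
    have t2 : Tendsto (fun n : ℕ => ((n + 1 : ℕ) : ℝ)) atTop atTop :=
      tendsto_natCast_atTop_atTop.comp (tendsto_add_atTop_nat 1)
    filter_upwards [t1.eventually (gt_mem_nhds e0), t2.eventually_ge_atTop (R + R ^ 2 + 1)] with n h1 h2 z hz
    have a1 := (E_apx hi hp hz h2).trans_lt h1
    have a2 := (E_apx hi hp (z := -z) (by rwa [norm_neg]) h2).trans_lt h1
    have nc : ((n + 1 : ℕ) : ℂ) ≠ 0 := by exact_mod_cast n.succ_ne_zero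
    have e : aeval (-z ^ 2 / 4) (L n) = (z / (2 * (n + 1 : ℕ))) ^ 2 := by
      simp only [L, map_mul, aeval_C, aeval_X, coe_algebraMap]
      push_cast at nc ⊢
      field_simp
      ring
    have ic : ∀ g : ℝ → ℂ, Continuous g → IntervalIntegrable (fun v => (ψ v : ℂ) * g v) volume 0 1 := fun g hg =>
      IntervalIntegrable.mul_continuousOn ⟨hi.1.ofReal, hi.2.ofReal⟩ hg.continuousOn
    have sp : ∀ s : ℂ, ∫ v in (0 : ℝ)..1, (ψ v : ℂ) * exp (I * s * v) =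
        (∫ v in (0 : ℝ)..1, (ψ v : ℂ) * cos (s * v)) + I * ∫ v in (0 : ℝ)..1, (ψ v : ℂ) * sin (s * v) := fun s => by
      rw [← intervalIntegral.integral_const_mul, ← intervalIntegral.integral_add (ic _ (by fun_prop))
        ((ic _ (by fun_prop)).const_mul _)]
      congr 1; funext v
      rw [show I * s * v = s * v * I by ring, exp_mul_I]; ring
    rw [h, sp] at a1 a2
    rw [neg_div, neg_sq] at a2
    simp only [neg_mul, cos_neg, sin_neg, mul_neg, intervalIntegral.integral_neg] at a2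
    simp only [map_mul, aeval_comp, aeval_C, e, coe_algebraMap]
    have e3 : z * ((((2 * ((n + 1 : ℕ) : ℝ))⁻¹ : ℝ) : ℂ) * aeval ((z / (2 * (n + 1 : ℕ))) ^ 2) (B (n + 1))) =
        z / (2 * (n + 1 : ℕ)) * aeval ((z / (2 * (n + 1 : ℕ))) ^ 2) (B (n + 1)) := by
      push_cast; ring
    rw [e3]
    generalize aeval ((z / (2 * (n + 1 : ℕ))) ^ 2) (A (n + 1)) = a at *
    generalize aeval ((z / (2 * (n + 1 : ℕ))) ^ 2) (B (n + 1)) = b at *
    generalize z / (2 * (n + 1 : ℕ)) = y at *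
    generalize ∫ v in (0 : ℝ)..1, (ψ v : ℂ) * cos (z * v) = c at *
    generalize ∫ v in (0 : ℝ)..1, (ψ v : ℂ) * sin (z * v) = s at *
    constructor
    · have := norm_add_le (a + I * y * b - (c + I * s)) (a + -(I * y * b) - (c + -(I * s)))
      rw [show a + I * y * b - (c + I * s) + (a + -(I * y * b) - (c + -(I * s))) = 2 * (a - c) by ring, norm_mul,
        Complex.norm_two] at this
      linarith
    · have := norm_sub_le (a + I * y * b - (c + I * s)) (a + -(I * y * b) - (c + -(I * s)))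
      rw [show a + I * y * b - (c + I * s) - (a + -(I * y * b) - (c + -(I * s))) = 2 * (I * (y * b - s)) by ring,
        norm_mul, norm_mul, Complex.norm_two, norm_I] at this
      linarith

end Pool.Agent.H.MP_dd1f31_an
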