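import Pool.Agent.H.MP_dd1f31_an.A

set_option autoImplicit false

namespace Pool.Agent.H.MP_dd1f31_an
open Polynomial Filter Topology MeasureTheory Set

noncomputable def hh (t : ℝ) : ℝ := (√(Real.exp (2 * t) - 1))⁻¹

lemma hh_meas : Measurable hh := by unfold hh; fun_prop

lemma ex_pos {t : ℝ} (ht : 0 < t) : 0 < Real.exp (2 * t) - 1 := by
  linarith [Real.add_one_le_exp (2 * t)]

lemma hh_pos {t : ℝ} (ht : 0 < t) : 0 < hh t := inv_pos.2 (Real.sqrt_pos.2 (ex_pos ht))

lemma hh_le {t : ℝ} (ht : 0 < t) : hh t ≤ t ^ (-(1 / 2) : ℝ) := by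
  rw [Real.rpow_neg ht.le, ← Real.sqrt_eq_rpow, hh]
  exact inv_anti₀ (Real.sqrt_pos.2 ht) (Real.sqrt_le_sqrt (by linarith [Real.add_one_le_exp (2 * t)]))

lemma int_pow {s c : ℝ} (hs : -1 < s) (hc : 0 < c) :
    IntegrableOn (fun t : ℝ => Real.exp (-(c * t)) * t ^ s) (Ioi 0) := by
  refine (integrableOn_rpow_mul_exp_neg_mul_rpow hs one_pos hc).congr_fun (fun t _ => ?_) measurableSet_Ioi
  simp [mul_comm]

lemma int_hh {c : ℝ} (hc : 0 < c) : IntegrableOn (fun t : ℝ => Real.exp (-(c * t)) * hh t) (Ioi 0) := by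
  refine (int_pow (s := -(1 / 2)) (by norm_num) hc).mono' ?_ ?_
  · exact (Measurable.mul (by fun_prop) hh_meas).aestronglyMeasurable
  · filter_upwards [ae_restrict_mem measurableSet_Ioi] with t ht
    rw [Real.norm_of_nonneg (mul_pos (Real.exp_pos _) (hh_pos ht)).le]
    exact mul_le_mul_of_nonneg_left (hh_le ht) (Real.exp_pos _).le

noncomputable def II (c : ℝ) : ℝ := ∫ t in Ioi (0 : ℝ), Real.exp (-(c * t)) * hh t

lemma II_pos {c : ℝ} (hc : 0 < c) : 0 < II c := by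
  rw [II, setIntegral_pos_iff_support_of_nonneg_ae _ (int_hh hc)]
  · refine lt_of_lt_of_le (b := volume (Ioi (0 : ℝ))) (by simp) (measure_mono fun t ht => ⟨?_, ht⟩)
    exact (mul_pos (Real.exp_pos _) (hh_pos ht)).ne'
  · filter_upwards [ae_restrict_mem measurableSet_Ioi] with t ht
    exact (mul_pos (Real.exp_pos _) (hh_pos ht)).le

lemma II_rec {c : ℝ} (hc : 0 < c) : (c + 2) * II (c + 2) = (c + 1) * II c := by
  have i1 := (int_hh (c := c + 2) (by linarith)).const_mul (c + 2)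
  have i2 := (int_hh hc).const_mul (c + 1)
  have key := integral_Ioi_of_hasDerivAt_of_tendsto (a := 0) (m := 0)
    (f := fun t => Real.exp (-((c + 2) * t)) * √(Real.exp (2 * t) - 1))
    (f' := fun t => (c + 2) * (Real.exp (-((c + 2) * t)) * hh t) - (c + 1) * (Real.exp (-(c * t)) * hh t))
    (Continuous.continuousWithinAt (by fun_prop)) (fun t ht => ?_) (i1.sub i2) ?_
  · rw [integral_sub i1 i2, integral_const_mul, integral_const_mul] at key
    simp only [mul_zero, Real.exp_zero, sub_self, Real.sqrt_zero] at key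
    unfold II; linarith
  · have p := ex_pos ht
    have d1 : HasDerivAt (fun t => Real.exp (-((c + 2) * t))) (Real.exp (-((c + 2) * t)) * -((c + 2) * 1)) t :=
      ((hasDerivAt_id t).const_mul (c + 2)).neg.exp
    have d2 : HasDerivAt (fun t => √(Real.exp (2 * t) - 1))
        (Real.exp (2 * t) * (2 * 1) / (2 * √(Real.exp (2 * t) - 1))) t :=
      ((((hasDerivAt_id t).const_mul 2).exp).sub_const 1).sqrt p.ne'
    refine (d1.mul d2).congr_deriv ?_
    have e : Real.exp (-(c * t)) = Real.exp (-((c + 2) * t)) * Real.exp (2 * t) := by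
      rw [← Real.exp_add]; ring_nf
    have s := Real.mul_self_sqrt p.le
    have s0 := (Real.sqrt_pos.2 p).ne'
    rw [e, hh]
    field_simp
    linear_combination (-(c + 2)) * s
  · refine squeeze_zero' (g := fun t => Real.exp (-t)) (.of_forall fun t => by positivity) ?_
      Real.tendsto_exp_neg_atTop_nhds_zero
    filter_upwards [eventually_ge_atTop 0] with t ht
    have h1 : √(Real.exp (2 * t) - 1) ≤ Real.exp t := by
      rw [Real.sqrt_le_left (Real.exp_pos _).le, sq, ← Real.exp_add, two_mul]; linarith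
    refine (mul_le_mul_of_nonneg_left h1 (Real.exp_pos _).le).trans ?_
    rw [← Real.exp_add, Real.exp_le_exp]
    nlinarith

lemma II_eq (k : ℕ) : II (2 * (k + 1 : ℕ)) * 4 ^ (k + 1) * ((k + 1).factorial : ℝ) ^ 2 =
    2 * II 2 * (2 * (k + 1)).factorial := by
  induction k with
  | zero => simp [Nat.factorial]; ring
  | succ k ih =>
    have := II_rec (c := 2 * (k + 1 : ℕ)) (by positivity)
    rw [show (2 : ℝ) * (k + 1 : ℕ) + 2 = 2 * (k + 1 + 1 : ℕ) by push_cast; ring] at this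
    rw [show 2 * (k + 1 + 1) = 2 * (k + 1) + 1 + 1 by ring, Nat.factorial_succ (k + 1),
      Nat.factorial_succ (2 * (k + 1) + 1), Nat.factorial_succ (2 * (k + 1))]
    generalize II (2 * (k + 1 + 1 : ℕ)) = x at *
    generalize II (2 * (k + 1 : ℕ)) = y at *
    push_cast at *
    linear_combination (2 * (k + 2) * 4 ^ (k + 1) * ((k + 1).factorial : ℝ) ^ 2) * this +
      (2 * (k + 2) * (2 * k + 3)) * ih

noncomputable def Ps (g : ℝ → ℝ) (x : ℝ) : ℝ := ∫ t in (0 : ℝ)..x, hh t * g (x - t)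

lemma Ps_conv (g : ℝ → ℝ) (c x : ℝ) : ∫ t in (0 : ℝ)..x, ContinuousLinearMap.mul ℝ ℝ (Real.exp (-(c * t)) * hh t)
    (Real.exp (-(c * (x - t))) * g (x - t)) = Real.exp (-(c * x)) * Ps g x := by
  rw [Ps, ← intervalIntegral.integral_const_mul]
  congr 1; funext t
  rw [show -(c * x) = -(c * t) + -(c * (x - t)) by ring, Real.exp_add]
  simp; ring

lemma Ps_int {g : ℝ → ℝ} {c : ℝ} (hc : 0 < c) (hg : IntegrableOn (fun t => Real.exp (-(c * t)) * g t) (Ioi 0)) :
    IntegrableOn (fun x => Real.exp (-(c * x)) * Ps g x) (Ioi 0) ∧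
      ∫ x in Ioi 0, Real.exp (-(c * x)) * Ps g x = II c * ∫ t in Ioi 0, Real.exp (-(c * t)) * g t := by
  have h1 := integrable_posConvolution (int_hh hc) hg (ContinuousLinearMap.mul ℝ ℝ)
  have h2 := integral_posConvolution (int_hh hc) hg (ContinuousLinearMap.mul ℝ ℝ)
  rw [posConvolution, integrable_indicator_iff measurableSet_Ioi] at h1
  simp only [Ps_conv] at h1 h2
  exact ⟨h1, h2⟩

lemma img : (fun x => Real.exp (-x)) '' Ioi (0 : ℝ) = Ioo 0 1 := by
  ext v
  constructor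
  · rintro ⟨x, hx, rfl⟩
    exact ⟨Real.exp_pos _, Real.exp_lt_one_iff.2 (neg_neg_of_pos hx)⟩
  · rintro ⟨a, b⟩
    exact ⟨-Real.log v, neg_pos.2 (Real.log_neg a b), by simp [Real.exp_log a]⟩

lemma cov (F : ℝ → ℝ) (n : ℕ) :
    (IntegrableOn (fun x => Real.exp (-(1 * x)) * F x) (Ioi 0) →
      IntervalIntegrable (fun v => F (-Real.log v)) volume 0 1) ∧
    ∫ v in (0 : ℝ)..1, F (-Real.log v) * v ^ n = ∫ x in Ioi 0, Real.exp (-((n + 1 : ℕ) * x)) * F x := by
  have hd : ∀ x ∈ Ioi (0 : ℝ), HasDerivWithinAt (fun x => Real.exp (-x)) (Real.exp (-x) * -1) (Ioi 0) x :=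
    fun x _ => (hasDerivAt_neg x).exp.hasDerivWithinAt
  have hj : InjOn (fun x => Real.exp (-x)) (Ioi (0 : ℝ)) := fun x _ y _ h => neg_injective (Real.exp_injective h)
  constructor
  · intro h
    rw [intervalIntegrable_iff_integrableOn_Ioo_of_le zero_le_one, ← img,
      integrableOn_image_iff_integrableOn_abs_deriv_smul measurableSet_Ioi hd hj]
    simpa using h
  · rw [intervalIntegral.integral_of_le zero_le_one, integral_Ioc_eq_integral_Ioo, ← img,
      integral_image_eq_integral_abs_deriv_smul measurableSet_Ioi hd hj]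
    congr 1; funext x
    rw [← Real.exp_nat_mul, show -(((n + 1 : ℕ) : ℝ) * x) = -x + n * -x by push_cast; ring, Real.exp_add]
    simp; ring

lemma bet {a x : ℝ} (ha : 0 < a) (hx : 0 < x) :
    IntervalIntegrable (fun r => hh (x * r) * (1 - r) ^ (a - 1)) volume 0 1 := by
  have h := (Complex.betaIntegral_convergent (u := (1 / 2 : ℝ)) (v := a) (by simp) (by simpa)).norm.const_mul
    (x ^ (-(1 / 2) : ℝ))
  rw [intervalIntegrable_iff_integrableOn_Ioo_of_le zero_le_one] at h ⊢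
  refine h.mono' (Measurable.mul (hh_meas.comp (by fun_prop)) (by fun_prop)).aestronglyMeasurable ?_
  filter_upwards [ae_restrict_mem measurableSet_Ioo] with r hr
  have r1 := sub_pos.2 hr.2
  have p := mul_pos hx hr.1
  rw [Real.norm_of_nonneg (mul_pos (hh_pos p) (Real.rpow_pos_of_pos r1 _)).le, norm_mul,
    Complex.norm_cpow_eq_rpow_re_of_pos hr.1, show (1 - r : ℂ) = ((1 - r : ℝ) : ℂ) by simp,
    Complex.norm_cpow_eq_rpow_re_of_pos r1, ← mul_assoc]
  simp only [Complex.sub_re, Complex.ofReal_re, Complex.one_re]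
  refine mul_le_mul_of_nonneg_right ((hh_le p).trans_eq ?_) (Real.rpow_pos_of_pos r1 _).le
  rw [Real.mul_rpow hx.le hr.1.le]; norm_num

lemma Ps_eq (a : ℝ) {x : ℝ} (hx : 0 < x) :
    Ps (fun t => t ^ (a - 1)) x = ∫ r in (0 : ℝ)..1, x ^ a * (hh (x * r) * (1 - r) ^ (a - 1)) := by
  have := intervalIntegral.smul_integral_comp_mul_left (a := 0) (b := 1) (fun t => hh t * (x - t) ^ (a - 1)) x
  rw [mul_zero, mul_one] at this
  rw [Ps, ← this, smul_eq_mul, ← intervalIntegral.integral_const_mul]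
  refine intervalIntegral.integral_congr fun r hr => ?_
  rw [uIcc_of_le zero_le_one] at hr
  rw [show x - x * r = x * (1 - r) by ring, Real.mul_rpow hx.le (sub_nonneg.2 hr.2), Real.rpow_sub_one hx.ne']
  field_simp

lemma hh_anti {x y r : ℝ} (hx : 0 < x) (hxy : x ≤ y) (hr : 0 < r) : √y * hh (y * r) ≤ √x * hh (x * r) := by
  have hy := hx.trans_le hxy
  have p := ex_pos (mul_pos hx hr)
  have q := ex_pos (mul_pos hy hr)
  rw [hh, hh, ← div_eq_mul_inv, ← div_eq_mul_inv, ← Real.sqrt_div hy.le, ← Real.sqrt_div hx.le]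
  refine Real.sqrt_le_sqrt ?_
  rw [div_le_div_iff₀ q p]
  have := convexOn_exp.2 (mem_univ 0) (mem_univ (2 * (y * r)))
    (sub_nonneg.2 ((div_le_one hy).2 hxy)) (div_pos hx hy).le (sub_add_cancel _ _)
  simp only [smul_eq_mul, mul_zero, zero_add, Real.exp_zero, mul_one] at this
  rw [show x / y * (2 * (y * r)) = 2 * (x * r) by field_simp] at this
  have := mul_le_mul_of_nonneg_left this hy.le
  rw [show y * (1 - x / y + x / y * Real.exp (2 * (y * r))) = y - x + x * Real.exp (2 * (y * r)) by field_simp] at this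
  linarith

lemma Ps_anti {a x y : ℝ} (ha : 0 < a) (a2 : a ≤ 1 / 2) (hx : 0 < x) (hxy : x ≤ y) :
    Ps (fun t => t ^ (a - 1)) y ≤ Ps (fun t => t ^ (a - 1)) x := by
  have hy := hx.trans_le hxy
  rw [Ps_eq a hx, Ps_eq a hy]
  refine intervalIntegral.integral_mono_on_of_le_Ioo zero_le_one ((bet ha hy).const_mul _) ((bet ha hx).const_mul _)
    fun r hr => ?_
  rw [← mul_assoc, ← mul_assoc]
  refine mul_le_mul_of_nonneg_right ?_ (Real.rpow_pos_of_pos (sub_pos.2 hr.2) _).le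
  have e : ∀ z : ℝ, 0 < z → z ^ a = z ^ (a - 1 / 2) * √z := fun z hz => by
    rw [Real.sqrt_eq_rpow, ← Real.rpow_add hz]; ring_nf
  rw [e x hx, e y hy, mul_assoc, mul_assoc]
  exact mul_le_mul (Real.rpow_le_rpow_of_nonpos hx hxy (by linarith)) (hh_anti hx hxy hr.1)
    (mul_pos (Real.sqrt_pos.2 hy) (hh_pos (mul_pos hy hr.1))).le (Real.rpow_pos_of_pos hx _).le

lemma Ps_pos {a x : ℝ} (ha : 0 < a) (hx : 0 < x) : 0 < Ps (fun t => t ^ (a - 1)) x := by
  rw [Ps_eq a hx]
  exact intervalIntegral.intervalIntegral_pos_of_pos_on ((bet ha hx).const_mul _) (fun r hr =>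
    mul_pos (Real.rpow_pos_of_pos hx _) (mul_pos (hh_pos (mul_pos hx hr.1))
      (Real.rpow_pos_of_pos (sub_pos.2 hr.2) _))) one_pos

lemma sin_sum {ψ : ℝ → ℝ} (hi : IntervalIntegrable ψ volume 0 1) (z : ℂ) :
    HasSum (fun n => (-1) ^ n * z ^ (2 * n + 1) / (2 * n + 1).factorial * (∫ v in (0 : ℝ)..1, ψ v * v ^ (2 * n + 1) : ℝ))
      (∫ v in (0 : ℝ)..1, (ψ v : ℂ) * Complex.sin (z * v)) := by
  have := intervalIntegral.hasSum_integral_of_dominated_convergence (μ := volume) (a := 0) (b := 1)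
    (F := fun n v => (ψ v : ℂ) * ((-1) ^ n * (z * v) ^ (2 * n + 1) / (2 * n + 1).factorial))
    (f := fun v => (ψ v : ℂ) * Complex.sin (z * v)) (fun n v => |ψ v| * (‖z‖ ^ (2 * n + 1) / (2 * n + 1).factorial))
    (fun n => (Complex.continuous_ofReal.comp_aestronglyMeasurable hi.def'.1).mul
      (Continuous.aestronglyMeasurable (by fun_prop)))
    (fun n => .of_forall fun v hv => ?_) (.of_forall fun v _ => ?_)
    ?_ (.of_forall fun v _ => ?_)
  · refine this.congr_fun fun n => ?_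
    rw [← intervalIntegral.integral_ofReal, ← intervalIntegral.integral_const_mul]
    congr 1; funext v; push_cast; ring
  · rw [uIoc_of_le zero_le_one] at hv
    simp only [norm_mul, norm_div, norm_pow, norm_neg, norm_one, one_pow, one_mul, Complex.norm_real,
      Complex.norm_natCast, Real.norm_eq_abs, abs_of_pos hv.1]
    have := hv.1
    gcongr
    exact mul_le_of_le_one_right (norm_nonneg z) hv.2
  · have := (Real.hasSum_sinh ‖z‖).summable.mul_left |ψ v|
    exact this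
  · simp only [tsum_mul_left]
    exact hi.abs.mul_const _
  · have := (Complex.hasSum_sin (z * v)).mul_left (ψ v : ℂ)
    exact this

theorem lp0 {a : ℝ} (ha : 0 < a) (a2 : a ≤ 1 / 2) : ∃ p : ℕ → ℝ[X],
    (∀ n (x : ℂ), aeval x (p n) = 0 → x.im = 0 ∧ x.re ≤ 0) ∧
    ∀ R ε : ℝ, 0 < ε → ∀ᶠ n in atTop, ∀ x : ℂ, ‖x‖ ≤ R →
      ‖aeval x (X * p n) - ∑' k : ℕ, (((k : ℝ) ^ (1 - a) / (k.factorial : ℝ) ^ 2 : ℝ) : ℂ) * x ^ k‖ < ε := by
  have hI := fun c (hc : 0 < c) => Ps_int hc (int_pow (s := a - 1) (by linarith) hc)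
  have hi := (cov (Ps fun t => t ^ (a - 1)) 0).1 (hI 1 one_pos).1
  obtain ⟨A, B, h1, h2⟩ := polya hi (fun x hx y hy hxy => Ps_anti ha a2 (neg_pos.2 (Real.log_neg hy.1 hy.2))
    (neg_le_neg (Real.log_le_log hx.1 hxy))) fun v hv => Ps_pos ha (neg_pos.2 (Real.log_neg hv.1 hv.2))
  obtain ⟨c, hc⟩ : ∃ c : ℝ, c = (II 2 * (1 / 2) ^ a * Real.Gamma a)⁻¹ := ⟨_, rfl⟩
  have G := Real.Gamma_pos_of_pos ha
  have I2 := II_pos two_pos
  have c0 : 0 < c := by rw [hc]; positivity
  refine ⟨fun n => C c * B n, fun n x hx => ?_, fun R ε e0 => ?_⟩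
  · rw [map_mul, aeval_C, mul_eq_zero] at hx
    rcases hx with hx | hx
    · exact absurd (by simpa using hx) c0.ne'
    · exact h1 n x (.inr hx)
  filter_upwards [h2 (4 * |R| + 1) (ε / (c * (4 * |R| + 1))) (by positivity)] with n hn x hx
  obtain ⟨z, hz⟩ := IsAlgClosed.exists_pow_nat_eq (-4 * x) two_pos
  have nz : ‖z‖ ≤ 4 * |R| + 1 := by
    have : ‖z‖ ^ 2 = 4 * ‖x‖ := by rw [← norm_pow, hz, norm_mul]; simp
    nlinarith [le_abs_self R, sq_nonneg (‖z‖ - 1)]
  have h3 := (hn z nz).2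
  have ex : x = -z ^ 2 / 4 := by rw [hz]; ring
  have hs : HasSum (fun k : ℕ => (((k : ℝ) ^ (1 - a) / (k.factorial : ℝ) ^ 2 : ℝ) : ℂ) * x ^ k)
      (-c * z / 4 * ∫ v in (0 : ℝ)..1, (Ps (fun t => t ^ (a - 1)) (-Real.log v) : ℂ) * Complex.sin (z * v)) := by
    rw [← hasSum_nat_add_iff' 1, Finset.sum_range_one, Nat.cast_zero, Real.zero_rpow (by linarith), zero_div,
      Complex.ofReal_zero, zero_mul, sub_zero]
    refine ((sin_sum hi z).mul_left _).congr_fun fun k => ?_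
    have k0 : (0 : ℝ) < (k + 1 : ℕ) := by positivity
    rw [(cov _ _).2, show (((2 * k + 1 + 1 : ℕ)) : ℝ) = 2 * (k + 1 : ℕ) by push_cast; ring, (hI _ (by positivity)).2]
    simp only [mul_comm (Real.exp _)]
    rw [Real.integral_rpow_mul_exp_neg_mul_Ioi ha (by positivity)]
    have e : ((k + 1 : ℕ) : ℝ) ^ (1 - a) / ((k + 1).factorial : ℝ) ^ 2 = c * 4 ^ k / (2 * k + 1).factorial *
        (II (2 * (k + 1 : ℕ)) * ((1 / (2 * (k + 1 : ℕ))) ^ a * Real.Gamma a)) := by
      have := II_eq k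
      rw [show 2 * (k + 1) = 2 * k + 1 + 1 by ring, Nat.factorial_succ (2 * k + 1), Nat.cast_mul,
        show (((2 * k + 1 + 1 : ℕ)) : ℝ) = 2 * (k + 1 : ℕ) by push_cast; ring] at this
      rw [hc, ← one_div_mul_one_div, Real.mul_rpow (by positivity) (by positivity), Real.rpow_sub k0,
        Real.div_rpow zero_le_one k0.le, Real.one_rpow, Real.rpow_one]
      generalize II (2 * (k + 1 : ℕ)) = y at *
      have : (0 : ℝ) < ((k + 1 : ℕ) : ℝ) ^ a := by positivity
      have : (0 : ℝ) < (1 / 2) ^ a := by positivity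
      have : (0 : ℝ) < (k + 1).factorial := by positivity
      have : (0 : ℝ) < (2 * k + 1).factorial := by positivity
      field_simp
      linear_combination (-1 / 4) * ‹y * _ * _ = _›
    rw [e, ex, div_pow, neg_pow, ← pow_mul]
    push_cast
    field_simp
    ring
  rw [hs.tsum_eq, map_mul, map_mul, aeval_C, aeval_X, Complex.coe_algebraMap]
  rw [← ex] at h3
  generalize (∫ v in (0 : ℝ)..1, (Ps (fun t => t ^ (a - 1)) (-Real.log v) : ℂ) * Complex.sin (z * v)) = S at *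
  rw [show x * (c * aeval x (B n)) - -c * z / 4 * S = -c * z / 4 * (z * aeval x (B n) - S) by
    linear_combination (c * aeval x (B n)) * ex, norm_mul]
  rw [lt_div_iff₀' (by positivity)] at h3
  refine lt_of_le_of_lt (mul_le_mul_of_nonneg_right ?_ (norm_nonneg _)) h3
  rw [norm_div, norm_mul, norm_neg, Complex.norm_real, Real.norm_of_nonneg c0.le, Complex.norm_ofNat]
  nlinarith [mul_le_mul_of_nonneg_left nz c0.le, mul_nonneg c0.le (norm_nonneg z)]

theorem lp {a : ℝ} (ha : 0 < a) (a2 : a ≤ 1 / 2) : ∃ p : ℕ → ℝ[X],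
    (∀ n (x : ℂ), aeval x (p n) = 0 → x.im = 0 ∧ x.re ≤ 0) ∧
    ∀ R ε : ℝ, 0 < ε → ∀ᶠ n in atTop, ∀ x : ℂ, ‖x‖ ≤ R →
      ‖aeval x (p n) - ∑' k : ℕ, (((k : ℝ) ^ (1 - a) / (k.factorial : ℝ) ^ 2 : ℝ) : ℂ) * x ^ k‖ < ε := by
  obtain ⟨p, h1, h2⟩ := lp0 ha a2
  refine ⟨fun n => X * p n, fun n x hx => ?_, h2⟩
  rw [map_mul, aeval_X, mul_eq_zero] at hx
  rcases hx with rfl | hx
  · simp
  · exact h1 n x hx

end Pool.Agent.H.MP_dd1f31_an
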