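import Pool.Agent.H.MP_dd1f31_an.B

set_option autoImplicit false

namespace Pool.Agent.H.MP_dd1f31_an
open Polynomial Filter Topology Finset

def NZ (P : ℂ[X]) : Prop := ∀ x : ℂ, 0 < x.im → P.eval x ≠ 0

lemma ld {P : ℂ[X]} (h : NZ P) {x : ℂ} (hx : 0 < x.im) : (P.derivative.eval x / P.eval x).im ≤ 0 := by
  rw [(IsAlgClosed.splits P).eval_derivative_div_eval_of_ne_zero (h x hx)]
  have : ∀ r ∈ P.roots, r.im ≤ 0 := fun r hr => not_lt.1 fun h' => h r h' (isRoot_of_mem_roots hr)
  generalize P.roots = s at this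
  induction s using Multiset.induction_on with
  | empty => simp
  | cons r s ih =>
    rw [Multiset.map_cons, Multiset.sum_cons, Complex.add_im, one_div, Complex.inv_im]
    have h1 := this r (Multiset.mem_cons_self _ _)
    exact add_nonpos (div_nonpos_of_nonpos_of_nonneg (by rw [Complex.sub_im]; linarith) (Complex.normSq_nonneg _))
      (ih fun x hx => this x (Multiset.mem_cons_of_mem hx))

lemma step {P : ℂ[X]} (h : NZ P) {x y r : ℂ} (hx : 0 < x.im) (hy : 0 < y.im) (r0 : r.im = 0) (r1 : r.re < 0) :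
    y * P.derivative.eval x - r * P.eval x ≠ 0 := fun e => by
  have y0 : y ≠ 0 := fun e => by simp [e] at hy
  have h1 := ld h hx
  have p0 := h x hx
  rw [show P.derivative.eval x / P.eval x = r * y⁻¹ by field_simp; linear_combination e, Complex.mul_im, r0, zero_mul,
    add_zero, Complex.inv_im] at h1
  exact absurd h1 (not_le.2 (mul_pos_of_neg_of_neg r1 (div_neg_of_neg_of_pos (neg_neg_of_pos hy)
    (Complex.normSq_pos.2 y0))))

lemma comp {P : ℂ[X]} (h : NZ P) {y : ℂ} (hy : 0 < y.im) (M : Multiset ℂ) (hM : ∀ r ∈ M, r.im = 0 ∧ r.re < 0) :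
    NZ (aeval (y • (derivative : ℂ[X] →ₗ[ℂ] ℂ[X]) : Module.End ℂ ℂ[X]) (M.map fun r => X - C r).prod P) := by
  induction M using Multiset.induction_on with
  | empty => simpa using h
  | cons r s ih =>
    intro x hx
    have := step (ih fun x hx => hM x (Multiset.mem_cons_of_mem hx)) hx hy (hM r (Multiset.mem_cons_self _ _)).1
      (hM r (Multiset.mem_cons_self _ _)).2
    rw [Multiset.map_cons, Multiset.prod_cons, map_mul, Module.End.mul_apply]
    simpa using this

lemma comp' {P Q : ℂ[X]} (h : NZ P) (hQ : ∀ r, Q.eval r = 0 → r.im = 0 ∧ r.re < 0) {x y : ℂ} (hx : 0 < x.im)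
    (hy : 0 < y.im) : ∑ k ∈ range (P.natDegree + 1), Q.coeff k * (derivative^[k] P).eval x * y ^ k ≠ 0 := by
  have Q0 : Q ≠ 0 := fun e => by simpa using (hQ 0 (by simp [e])).2
  have := mul_ne_zero (leadingCoeff_ne_zero.2 Q0) (comp h hy Q.roots (fun r hr => hQ r (isRoot_of_mem_roots hr)) x hx)
  rw [← smul_eq_mul, ← eval_smul, ← LinearMap.smul_apply, ← map_smul, smul_eq_C_mul,
    C_leadingCoeff_mul_prod_multiset_X_sub_C IsAlgClosed.card_roots_eq_natDegree,
    aeval_eq_sum_range' (n := P.natDegree + 1 + Q.natDegree) (by omega), LinearMap.sum_apply, eval_finsetSum,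
    sum_range_add, sum_eq_zero (s := range Q.natDegree) fun k _ => by
      rw [_root_.smul_pow, LinearMap.smul_apply, LinearMap.smul_apply, Module.End.pow_apply,
        iterate_derivative_eq_zero (by omega)]; simp, add_zero] at this
  refine fun e => this (e ▸ sum_congr rfl fun k _ => ?_)
  rw [_root_.smul_pow, LinearMap.smul_apply, LinearMap.smul_apply, Module.End.pow_apply, eval_smul, eval_smul,
    smul_eq_mul, smul_eq_mul]
  ring

def St (d : ℕ) (c : ℕ → ℂ) : Prop := ∀ u v : ℂ, 0 < u.im →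
  ‖∑ k ∈ range (d + 1), c k * v ^ k‖ ≤ (1 + ‖v - u‖ / u.im) ^ d * ‖∑ k ∈ range (d + 1), c k * u ^ k‖

lemma St_of {d : ℕ} {c : ℕ → ℂ} (h : ∀ y : ℂ, 0 < y.im → ∑ k ∈ range (d + 1), c k * y ^ k ≠ 0) : St d c := by
  intro u v hu
  let P : ℂ[X] := ∑ j ∈ range (d + 1), monomial j (c j)
  have ev : ∀ z, P.eval z = ∑ j ∈ range (d + 1), c j * z ^ j := fun z => by simp [P, eval_finsetSum]
  have dN : P.natDegree ≤ d := natDegree_sum_le_of_forall_le _ _ fun j hj => (natDegree_monomial_le _).trans (by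
      simpa [Nat.lt_succ_iff] using hj)
  have cd : Multiset.card P.roots = P.natDegree := IsAlgClosed.card_roots_eq_natDegree
  have fac : ∀ z, P.eval z = P.leadingCoeff * (P.roots.map fun r => z - r).prod := fun z => by
    conv_lhs => rw [← C_leadingCoeff_mul_prod_multiset_X_sub_C cd]
    simp [eval_multiset_prod]
  have rt : ∀ r ∈ P.roots, r.im ≤ 0 := fun r hr => not_lt.1 fun h' => h r h' (by
    rw [← ev]; exact isRoot_of_mem_roots hr)
  have k1 : 1 ≤ 1 + ‖v - u‖ / u.im := le_add_of_nonneg_right (by positivity)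
  rw [← ev, ← ev, fac, fac, norm_mul, norm_mul, mul_left_comm]
  refine mul_le_mul_of_nonneg_left (le_trans ?_ (mul_le_mul_of_nonneg_right (pow_le_pow_right₀ k1 (cd.trans_le dN))
    (norm_nonneg _))) (norm_nonneg _)
  generalize P.roots = s at rt
  induction s using Multiset.induction_on with
  | empty => simp
  | cons r s ih =>
    have h1 := ih fun x hx => rt x (Multiset.mem_cons_of_mem hx)
    have h2 := rt r (Multiset.mem_cons_self _ _)
    rw [Multiset.card_cons, Multiset.map_cons, Multiset.map_cons, Multiset.prod_cons, Multiset.prod_cons, pow_succ',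
      norm_mul, norm_mul, mul_mul_mul_comm]
    refine mul_le_mul ?_ h1 (norm_nonneg _) (by positivity)
    have h3 : u.im ≤ ‖u - r‖ := le_trans (by rw [Complex.sub_im]; linarith) (Complex.im_le_norm _)
    have h4 := norm_add_le (v - u) (u - r)
    have h5 := mul_le_mul_of_nonneg_left h3 (by positivity : 0 ≤ ‖v - u‖ / u.im)
    rw [div_mul_cancel₀ _ hu.ne'] at h5
    rw [sub_add_sub_cancel] at h4
    linarith

lemma St_lim {ι : Type} {l : Filter ι} [l.NeBot] {d : ℕ} {c : ι → ℕ → ℂ} {c' : ℕ → ℂ} (h : ∀ᶠ i in l, St d (c i))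
    (hc : ∀ k, Tendsto (c · k) l (𝓝 (c' k))) : St d c' := fun u v hu =>
  le_of_tendsto_of_tendsto (tendsto_finsetSum _ fun k _ => (hc k).mul_const _).norm
    ((tendsto_finsetSum _ fun k _ => (hc k).mul_const _).norm.const_mul _) (h.mono fun _ hi => hi u v hu)

def RR (p : ℝ[X]) : Prop := p = 0 ∨ ∀ z : ℂ, aeval z p = 0 → z.im = 0

def MS (γ : ℕ → ℝ) : Prop := ∀ p q : ℝ[X], RR p → (∀ k, q.coeff k = γ k * p.coeff k) → RR q

lemma RR_of {q : ℝ[X]} (h : ∀ z : ℂ, 0 < z.im → aeval z q = 0 → q = 0) : RR q := by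
  refine or_iff_not_imp_left.2 fun q0 z hz => ?_
  rcases lt_trichotomy 0 z.im with h1 | h1 | h1
  · exact absurd (h z h1 hz) q0
  · exact h1.symm
  · refine absurd (h (starRingEnd ℂ z) (by simpa using h1) ?_) q0
    rw [aeval_conj, hz, map_zero]

theorem ms {γ : ℕ → ℝ} {q : ℕ → ℝ[X]} (hq : ∀ n (x : ℂ), aeval x (q n) = 0 → x.im = 0 ∧ x.re ≤ 0)
    (hc : ∀ k, Tendsto (fun n => (q n).coeff k) atTop (𝓝 (γ k / k.factorial))) : MS γ := by
  intro p r hp hr
  rcases hp with rfl | hp
  · exact .inl (by ext k; simp [hr])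
  obtain ⟨P, hP⟩ : ∃ P, P = p.map (algebraMap ℝ ℂ) := ⟨_, rfl⟩
  have nz : NZ P := fun x hx e => hx.ne' (hp x (by rwa [hP, eval_map_algebraMap] at e))
  have s1 : ∀ n, St P.natDegree fun k => ((q n).map (algebraMap ℝ ℂ)).coeff k * (derivative^[k] P).eval 0 := by
    intro n
    generalize hQ : (q n).map (algebraMap ℝ ℂ) = Q
    refine St_lim (l := 𝓝[>] (0 : ℝ)) (c := fun δ k => (taylor (δ : ℂ) Q).coeff k *
      (derivative^[k] P).eval (δ * Complex.I)) ?_ fun k => ?_
    · filter_upwards [self_mem_nhdsWithin] with δ hδ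
      refine St_of fun y hy => comp' nz (fun x hx => ?_) (by simpa using hδ) hy
      rw [taylor_eval, ← hQ, eval_map_algebraMap] at hx
      have := hq n _ hx
      simp only [Complex.add_im, Complex.ofReal_im, add_zero, Complex.add_re, Complex.ofReal_re] at this
      exact ⟨this.1, by linarith [this.2, Set.mem_Ioi.1 hδ]⟩
    · simp only [taylor_coeff]
      refine tendsto_nhdsWithin_of_tendsto_nhds (Continuous.tendsto' (by fun_prop) _ _ ?_)
      rw [← taylor_coeff]; simp
  have s2 : St P.natDegree fun k => (r.coeff k : ℂ) := by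
    refine St_lim (l := atTop) (.of_forall s1) fun k => ?_
    have := ((Complex.continuous_ofReal.tendsto _).comp (hc k)).mul_const ((derivative^[k] P).eval 0)
    have e : ((γ k / k.factorial : ℝ) : ℂ) * (derivative^[k] P).eval 0 = r.coeff k := by
      have : (k.factorial : ℂ) ≠ 0 := by exact_mod_cast k.factorial_ne_zero
      rw [← coeff_zero_eq_eval_zero, coeff_iterate_derivative, zero_add, Nat.descFactorial_self, hr, hP, coeff_map]
      simp; field_simp
    rw [e] at this
    simpa using this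
  have dr : r.natDegree < P.natDegree + 1 := Nat.lt_succ_of_le (by
    rw [hP, natDegree_map, natDegree_le_iff_coeff_eq_zero]
    exact fun k hk => by rw [hr, coeff_eq_zero_of_natDegree_lt hk, mul_zero])
  have ev : ∀ z : ℂ, aeval z r = ∑ k ∈ range (P.natDegree + 1), (r.coeff k : ℂ) * z ^ k := fun z => by
    rw [aeval_eq_sum_range' dr]; simp
  refine RR_of fun z hz e => Polynomial.funext fun x => ?_
  have := s2 z x hz
  rw [← ev, ← ev, e, norm_zero, mul_zero, norm_le_zero_iff, ← Complex.coe_algebraMap, aeval_algebraMap_apply] at this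
  simpa using this

lemma coef {b : ℕ → ℂ} {g : ℂ → ℂ} {ε : ℝ} (h : ∀ z, ‖z‖ = 1 → HasSum (fun k => b k * z ^ k) (g z))
    (hg : ∀ z, ‖z‖ = 1 → ‖g z‖ ≤ ε) (k : ℕ) : ‖b k‖ ≤ ε := by
  have n1 : ∀ t : ℝ, ‖Complex.exp (t * Complex.I)‖ = 1 := Complex.norm_exp_ofReal_mul_I
  have sm : Summable fun k => ‖b k‖ := by simpa using (h 1 norm_one).summable.norm
  have := intervalIntegral.hasSum_integral_of_dominated_convergence (μ := MeasureTheory.volume) (a := 0)
    (b := 2 * Real.pi) (F := fun n t => b n * Complex.exp (t * Complex.I) ^ n / Complex.exp (t * Complex.I) ^ k)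
    (f := fun t => g (Complex.exp (t * Complex.I)) / Complex.exp (t * Complex.I) ^ k) (fun n _ => ‖b n‖)
    (fun n => Continuous.aestronglyMeasurable (Continuous.div (by fun_prop) (by fun_prop) fun t => by simp))
    (fun n => .of_forall fun t _ => by simp [n1]) (.of_forall fun _ _ => sm) intervalIntegrable_const
    (.of_forall fun t _ => ?_)
  · have e := this.unique (hasSum_single k fun n hn => ?_)
    · have h2 := intervalIntegral.norm_integral_le_of_norm_le_const (a := 0) (b := 2 * Real.pi) (C := ε)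
        (f := fun t : ℝ => g (Complex.exp (t * Complex.I)) / Complex.exp (t * Complex.I) ^ k) fun t _ => by
          simpa [n1] using hg _ (n1 t)
      rw [e] at h2
      simp only [ne_eq, Complex.exp_ne_zero, not_false_eq_true, pow_eq_zero_iff', false_and, mul_div_cancel_right₀,
        intervalIntegral.integral_const, sub_zero, norm_smul, Real.norm_eq_abs] at h2
      rw [mul_comm] at h2
      exact le_of_mul_le_mul_right h2 (abs_pos.2 (by positivity))
    · have c0 : ((n : ℂ) - k) * Complex.I ≠ 0 := mul_ne_zero (sub_ne_zero.2 (by exact_mod_cast hn)) Complex.I_ne_zero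
      have e : ∀ t : ℝ, b n * Complex.exp (t * Complex.I) ^ n / Complex.exp (t * Complex.I) ^ k =
          b n * Complex.exp (((n : ℂ) - k) * Complex.I * t) := fun t => by
        rw [← Complex.exp_nat_mul, ← Complex.exp_nat_mul, mul_div_assoc, ← Complex.exp_sub]; ring_nf
      simp only [e]
      rw [intervalIntegral.integral_const_mul, integral_exp_mul_complex c0,
        show ((n : ℂ) - k) * Complex.I * (2 * Real.pi : ℝ) = ((n - k : ℤ) : ℂ) * (2 * Real.pi * Complex.I) by
          push_cast; ring, Complex.exp_int_mul_two_pi_mul_I]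
      simp
  · have := (h _ (n1 t)).div_const (Complex.exp (t * Complex.I) ^ k)
    exact this

lemma exT (γ : ℕ → ℝ) (p : ℝ[X]) : ∃ q : ℝ[X], ∀ k, q.coeff k = γ k * p.coeff k := by
  refine ⟨∑ j ∈ range (p.natDegree + 1), monomial j (γ j * p.coeff j), fun k => ?_⟩
  simp only [finsetSum_coeff, coeff_monomial, sum_ite_eq', mem_range]
  split_ifs with h
  · rfl
  · rw [coeff_eq_zero_of_natDegree_lt (by omega), mul_zero]

lemma MS.mul {γ δ : ℕ → ℝ} (h1 : MS γ) (h2 : MS δ) : MS fun k => γ k * δ k := fun p q hp hq => by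
  obtain ⟨r, hr⟩ := exT δ p
  exact h1 r q (h2 p r hp hr) fun k => by rw [hq, hr, mul_assoc]

lemma MS_succ : MS fun k => k + 1 := by
  intro p q hp hq
  rcases hp with rfl | hp
  · exact .inl (by ext k; simp [hq])
  have nz : NZ (p.map (algebraMap ℝ ℂ)) := fun x hx e => hx.ne' (hp x (by rwa [eval_map_algebraMap] at e))
  have e : q = X * derivative p + p := by
    ext k
    rw [hq, coeff_add]
    cases k with
    | zero => simp
    | succ k => rw [coeff_X_mul, coeff_derivative]; push_cast; ring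
  refine RR_of fun z hz h => absurd ?_ (step nz hz hz (r := -1) (by simp) (by simp))
  rw [derivative_map, eval_map_algebraMap, eval_map_algebraMap, ← h, e]
  simp

lemma MS_pow (n : ℕ) : MS fun k => (k + 1) ^ n := by
  induction n with
  | zero =>
    intro p q hp hq
    rwa [show q = p by ext k; simp [hq]]
  | succ n ih => simpa only [pow_succ] using ih.mul MS_succ

lemma sm_of {c : ℕ → ℝ} {A : ℝ} (h : ∀ k, |c k| ≤ A ^ k / k.factorial) (R : ℝ) : Summable fun k => |c k| * |R| ^ k := by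
  refine .of_nonneg_of_le (fun k => by positivity) (fun k => ?_) (Real.summable_pow_div_factorial (A * |R|))
  rw [mul_pow, mul_div_right_comm]
  exact mul_le_mul_of_nonneg_right (h k) (by positivity)

lemma hs_of {c : ℕ → ℝ} {A : ℝ} (h : ∀ k, |c k| ≤ A ^ k / k.factorial) (z : ℂ) :
    Summable fun k => (c k : ℂ) * z ^ k :=
  .of_norm (by simpa using sm_of h ‖z‖)

lemma hs_poly (p : ℝ[X]) (z : ℂ) : HasSum (fun k => (p.coeff k : ℂ) * z ^ k) (aeval z p) := by
  rw [aeval_eq_sum_range]
  simp only [Complex.real_smul]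
  exact hasSum_sum_of_ne_finset_zero fun k hk => by
    rw [coeff_eq_zero_of_natDegree_lt (by simpa using hk)]; simp

lemma MS_beta {a : ℝ} (ha : 0 < a) (a2 : a ≤ 1 / 2) : MS fun k => (k + 1 : ℝ) ^ (-1 - a) / k.factorial := by
  obtain ⟨p, h1, h2⟩ := lp0 ha a2
  refine ms h1 fun k => Metric.tendsto_nhds.2 fun ε e0 => ?_
  have hb : ∀ k : ℕ, |(k : ℝ) ^ (1 - a) / (k.factorial : ℝ) ^ 2| ≤ 1 ^ k / k.factorial := fun k => by
    have f0 : (0 : ℝ) < k.factorial := by positivity
    rw [abs_of_nonneg (by positivity), one_pow, sq, ← div_div]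
    refine div_le_div_of_nonneg_right ((div_le_one f0).2 ?_) f0.le
    refine le_trans ?_ (Nat.cast_le.2 k.self_le_factorial)
    rcases k.eq_zero_or_pos with rfl | k0
    · rw [Nat.cast_zero, Real.zero_rpow (by linarith)]
    · exact Real.rpow_le_self_of_one_le (by exact_mod_cast k0) (by linarith)
  filter_upwards [h2 1 (ε / 2) (by positivity)] with n hn
  have := coef (fun z _ => by
    simpa only [← sub_mul] using (hs_poly (X * p n) z).sub (hs_of hb z).hasSum) (fun z hz => (hn z hz.le).le) (k + 1)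
  rw [coeff_X_mul, ← Complex.ofReal_sub, Complex.norm_real] at this
  rw [dist_eq_norm]
  refine lt_of_le_of_lt (le_trans (le_of_eq ?_) this) (by linarith)
  congr 2
  have k0 : (0 : ℝ) < k + 1 := by positivity
  rw [Nat.factorial_succ, show 1 - a = -1 - a + (2 : ℕ) by push_cast; ring, Nat.cast_mul, Nat.cast_succ,
    Real.rpow_add_natCast k0.ne']
  field_simp

lemma gen {γ : ℕ → ℝ} {A : ℝ} (h : MS γ) (h0 : γ 0 ≠ 0) (hA : ∀ k, |γ k / k.factorial| ≤ A ^ k / k.factorial) :
    ∃ p : ℕ → ℝ[X], (∀ n (x : ℂ), aeval x (p n) = 0 → x.im = 0) ∧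
    ∀ R ε : ℝ, 0 < ε → ∀ᶠ n in atTop, ∀ x : ℂ, ‖x‖ ≤ R →
      ‖aeval x (p n) - ∑' k : ℕ, ((γ k / k.factorial : ℝ) : ℂ) * x ^ k‖ < ε := by
  choose p hp using fun n : ℕ => exT γ ((C (n : ℝ)⁻¹ * X + 1) ^ n)
  have co : ∀ n k : ℕ, (p n).coeff k = γ k * (n.choose k * (n : ℝ)⁻¹ ^ k) := fun n k => by
    rw [hp, show (C (n : ℝ)⁻¹ * X + 1) ^ n = ((X + 1) ^ n).comp (C (n : ℝ)⁻¹ * X) by simp, comp_C_mul_X_coeff,
      coeff_X_add_one_pow]
  refine ⟨p, fun n => (h _ _ (.inr fun z hz => ?_) (hp n)).resolve_left fun e => h0 ?_, fun R ε e0 => ?_⟩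
  · rcases n.eq_zero_or_pos with rfl | n0
    · simp at hz
    have : (n : ℂ) ≠ 0 := by exact_mod_cast n0.ne'
    simp only [map_pow, map_add, map_mul, aeval_C, aeval_X, map_one, pow_eq_zero_iff n0.ne', Complex.coe_algebraMap,
      Complex.ofReal_inv, Complex.ofReal_natCast] at hz
    rw [show z = -n by field_simp at hz; linear_combination hz]; simp
  · simpa [e] using (co n 0).symm
  have t := tendsto_tsum_of_dominated_convergence (𝓕 := atTop)
    (f := fun n k => |(p n).coeff k - γ k / k.factorial| * |R| ^ k) (g := fun _ => 0)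
    (bound := fun k => |γ k / k.factorial| * |R| ^ k) (sm_of hA R) (fun k => ?_) (.of_forall fun n k => ?_)
  · rw [tsum_zero] at t
    filter_upwards [t.eventually (gt_mem_nhds e0)] with n hn x hx
    have := (hs_poly (p n) x).sub (hs_of hA x).hasSum
    refine lt_of_le_of_lt (this.norm_le_of_bounded (Summable.hasSum ?_) fun k => ?_) hn
    · refine .of_nonneg_of_le (fun k => by positivity) (fun k => ?_) ((hs_poly (p n) (|R| : ℝ)).summable.norm.add (sm_of hA R))
      rw [norm_mul, Complex.norm_real, norm_pow, Complex.norm_real, Real.norm_eq_abs, Real.norm_eq_abs, abs_abs, ← add_mul]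
      exact mul_le_mul_of_nonneg_right (abs_sub _ _) (by positivity)
    · rw [← sub_mul, ← Complex.ofReal_sub, norm_mul, Complex.norm_real, norm_pow, Real.norm_eq_abs]
      gcongr
      exact hx.trans (le_abs_self R)
  · have := ProbabilityTheory.tendsto_choose_mul_pow_atTop (p := fun n => (n : ℝ)⁻¹) (r := 1) k
      (tendsto_const_nhds.congr' ((eventually_gt_atTop 0).mono fun n hn =>
        (mul_inv_cancel₀ (by exact_mod_cast hn.ne')).symm))
    have := (((this.const_mul (γ k)).sub_const (γ k / k.factorial)).abs).mul_const (|R| ^ k)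
    simpa [co, div_eq_mul_inv] using this
  · rw [Real.norm_of_nonneg (by positivity), co, div_eq_mul_inv, ← mul_sub, abs_mul, abs_mul]
    refine mul_le_mul_of_nonneg_right (mul_le_mul_of_nonneg_left ?_ (abs_nonneg _)) (by positivity)
    have f0 : (0 : ℝ) < k.factorial := by positivity
    have h1 : (n.choose k : ℝ) * (n : ℝ)⁻¹ ^ k ≤ (k.factorial : ℝ)⁻¹ := by
      refine (mul_le_mul_of_nonneg_right (Nat.choose_le_pow_div k n) (by positivity)).trans ?_
      rw [div_mul_eq_mul_div, ← one_div (k.factorial : ℝ), ← mul_pow]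
      exact div_le_div_of_nonneg_right (pow_le_one₀ (by positivity) mul_inv_le_one) f0.le
    rw [abs_of_nonpos (sub_nonpos.2 h1), abs_of_pos (inv_pos.2 f0), neg_sub]
    exact sub_le_self _ (by positivity)

theorem cube {s : ℝ} (hs : 0 < s) : ∃ p : ℕ → ℝ[X], (∀ n (x : ℂ), aeval x (p n) = 0 → x.im = 0) ∧
    TendstoLocallyUniformly (fun n (z : ℂ) => aeval z (p n))
      (fun z => ∑' k : ℕ, (((k : ℝ) ^ s / (k.factorial : ℝ) ^ 3 : ℝ) : ℂ) * z ^ k) atTop := by
  obtain ⟨m, hm⟩ : ∃ m, m = ⌊s⌋₊ := ⟨_, rfl⟩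
  have m1 : (m : ℝ) ≤ s := hm ▸ Nat.floor_le hs.le
  have m2 : s < m + 1 := hm ▸ Nat.lt_floor_add_one s
  have hb := MS_beta (a := (1 - (s - m)) / 2) (by linarith) (by linarith)
  have hγ : MS fun k => (k + 1 : ℝ) ^ (s - 3) / (k.factorial : ℝ) ^ 2 := by
    refine (congrArg MS (funext fun k => ?_)).mp ((MS_pow m).mul (hb.mul hb))
    have k0 : (0 : ℝ) < k + 1 := by positivity
    rw [div_mul_div_comm, ← Real.rpow_add k0, ← mul_div_assoc, ← Real.rpow_natCast, ← Real.rpow_add k0, sq]
    congr 2; ring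
  have hA : ∀ k : ℕ, |(k + 1 : ℝ) ^ (s - 3) / (k.factorial : ℝ) ^ 2 / k.factorial| ≤ Real.exp s ^ k / k.factorial := by
    intro k
    have f1 : (1 : ℝ) ≤ k.factorial := by exact_mod_cast k.factorial_pos
    have k1 : (1 : ℝ) ≤ k + 1 := by simp
    rw [abs_of_nonneg (by positivity)]
    refine div_le_div_of_nonneg_right ((div_le_self (by positivity) (one_le_pow₀ f1)).trans ?_) (by positivity)
    refine (Real.rpow_le_rpow_of_exponent_le k1 (by linarith : s - 3 ≤ s)).trans ?_
    refine (Real.rpow_le_rpow (by positivity) (Real.add_one_le_exp k) hs.le).trans_eq ?_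
    rw [← Real.exp_mul, ← Real.exp_nat_mul]
  obtain ⟨p, h1, h2⟩ := gen hγ (by simp) hA
  refine ⟨fun n => X * p n, fun n x hx => ?_, Metric.tendstoLocallyUniformly_iff.2 fun ε e0 x =>
    ⟨Metric.closedBall 0 (‖x‖ + 1), Metric.closedBall_mem_nhds_of_mem (by simp), ?_⟩⟩
  · rw [map_mul, aeval_X, mul_eq_zero] at hx
    rcases hx with rfl | hx
    · simp
    · exact h1 n x hx
  filter_upwards [h2 (‖x‖ + 1) (ε / (‖x‖ + 1)) (by positivity)] with n hn y hy
  have hy : ‖y‖ ≤ ‖x‖ + 1 := by simpa using hy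
  have h3 := hn y hy
  have h4 : HasSum (fun k : ℕ => (((k : ℝ) ^ s / (k.factorial : ℝ) ^ 3 : ℝ) : ℂ) * y ^ k)
      (y * ∑' k : ℕ, (((k + 1 : ℝ) ^ (s - 3) / (k.factorial : ℝ) ^ 2 / k.factorial : ℝ) : ℂ) * y ^ k) := by
    rw [← hasSum_nat_add_iff' 1, Finset.sum_range_one, Nat.cast_zero, Real.zero_rpow hs.ne', zero_div,
      Complex.ofReal_zero, zero_mul, sub_zero]
    refine ((hs_of hA y).hasSum.mul_left y).congr_fun fun k => ?_
    have k0 : (0 : ℝ) < k + 1 := by positivity
    rw [mul_left_comm, ← pow_succ']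
    congr 2
    rw [Nat.factorial_succ, Nat.cast_mul, Nat.cast_succ, show s - 3 = s - (3 : ℕ) by simp, Real.rpow_sub_natCast k0.ne']
    field_simp
  rw [dist_comm, dist_eq_norm, h4.tsum_eq, map_mul, aeval_X, ← mul_sub, norm_mul]
  rw [lt_div_iff₀' (by positivity)] at h3
  exact lt_of_le_of_lt (mul_le_mul_of_nonneg_right hy (norm_nonneg _)) h3

end Pool.Agent.H.MP_dd1f31_an
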