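import Pool.Agent.H.MP_dd1f31_an.C

set_option autoImplicit false

namespace Pool.Agent.H.MP_dd1f31_an
open Polynomial Filter Topology MeasureTheory Set

lemma cos_sum {ψ : ℝ → ℝ} (hi : IntervalIntegrable ψ volume 0 1) (z : ℂ) :
    HasSum (fun n => (-1) ^ n * z ^ (2 * n) / (2 * n).factorial * (∫ v in (0 : ℝ)..1, ψ v * v ^ (2 * n) : ℝ))
      (∫ v in (0 : ℝ)..1, (ψ v : ℂ) * Complex.cos (z * v)) := by
  have := intervalIntegral.hasSum_integral_of_dominated_convergence (μ := volume) (a := 0) (b := 1)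
    (F := fun n v => (ψ v : ℂ) * ((-1) ^ n * (z * v) ^ (2 * n) / (2 * n).factorial))
    (f := fun v => (ψ v : ℂ) * Complex.cos (z * v)) (fun n v => |ψ v| * (‖z‖ ^ (2 * n) / (2 * n).factorial))
    (fun n => (Complex.continuous_ofReal.comp_aestronglyMeasurable hi.def'.1).mul
      (Continuous.aestronglyMeasurable (by fun_prop)))
    (fun n => .of_forall fun v hv => ?_) (.of_forall fun v _ => ?_) ?_ (.of_forall fun v _ => ?_)
  · refine this.congr_fun fun n => ?_
    rw [← intervalIntegral.integral_ofReal, ← intervalIntegral.integral_const_mul]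
    congr 1; funext v; push_cast; ring
  · rw [uIoc_of_le zero_le_one] at hv
    simp only [norm_mul, norm_div, norm_pow, norm_neg, norm_one, one_pow, one_mul, Complex.norm_real,
      Complex.norm_natCast, Real.norm_eq_abs, abs_of_pos hv.1]
    have := hv.1
    gcongr
    exact mul_le_of_le_one_right (norm_nonneg z) hv.2
  · have := (Real.hasSum_cosh ‖z‖).summable.mul_left |ψ v|
    exact this
  · simp only [tsum_mul_left]
    exact hi.abs.mul_const _
  · have := (Complex.hasSum_cos (z * v)).mul_left (ψ v : ℂ)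
    exact this

lemma MS_cos {ψ : ℝ → ℝ} (hi : IntervalIntegrable ψ volume 0 1) (hm : MonotoneOn ψ (Ioo 0 1))
    (hp : ∀ v ∈ Ioo (0 : ℝ) 1, 0 < ψ v) :
    MS fun k => 4 ^ k * (∫ v in (0 : ℝ)..1, ψ v * v ^ (2 * k)) / (2 * k).factorial * k.factorial := by
  obtain ⟨A, B, h1, h2⟩ := polya hi hm hp
  refine ms (fun n x hx => h1 n x (.inl hx)) fun k => Metric.tendsto_nhds.2 fun ε e0 => ?_
  choose z hz using fun x : ℂ => IsAlgClosed.exists_pow_nat_eq (-4 * x) two_pos
  filter_upwards [h2 5 (ε / 2) (by positivity)] with n hn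
  have := coef (b := fun k => ((A n).coeff k : ℂ) -
      (4 ^ k * (∫ v in (0 : ℝ)..1, ψ v * v ^ (2 * k)) / (2 * k).factorial : ℝ)) (ε := ε / 2)
    (g := fun x => aeval x (A n) - ∫ v in (0 : ℝ)..1, (ψ v : ℂ) * Complex.cos (z x * v)) (fun x _ => ?_)
    (fun x hx => ?_) k
  · rw [← Complex.ofReal_sub, Complex.norm_real] at this
    rw [dist_eq_norm, mul_div_cancel_right₀ _ (by positivity)]
    linarith
  · refine ((hs_poly (A n) x).sub (cos_sum hi (z x))).congr_fun fun k => ?_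
    rw [pow_mul, hz, show -4 * x = -1 * (4 * x) by ring, mul_pow, ← mul_assoc, ← mul_pow]
    push_cast
    ring
  · have nz : ‖z x‖ ≤ 5 := by
      have : ‖z x‖ ^ 2 = 4 := by rw [← norm_pow, hz, norm_mul, hx]; simp
      nlinarith [sq_nonneg (‖z x‖ - 1)]
    have := (hn _ nz).1
    rw [hz, show -(-4 * x) / 4 = x by ring] at this
    exact this.le

lemma push {s : Set ℝ} (hs : MeasurableSet s) {w w' Φ : ℝ → ℝ} (hd : ∀ x ∈ s, HasDerivWithinAt w (w' x) s x)
    (hj : InjOn w s) (im : w '' s = Ioo 0 1) (mo : ∀ a ∈ s, ∀ b ∈ s, w a ≤ w b → Φ a ≤ Φ b) (po : ∀ a ∈ s, 0 < Φ a)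
    (hI : IntegrableOn (fun x => |w' x| * Φ x) s) : ∃ ψ : ℝ → ℝ, IntervalIntegrable ψ volume 0 1 ∧
      MonotoneOn ψ (Ioo 0 1) ∧ (∀ v ∈ Ioo (0 : ℝ) 1, 0 < ψ v) ∧
      ∀ n : ℕ, ∫ v in (0 : ℝ)..1, ψ v * v ^ n = ∫ x in s, |w' x| * Φ x * w x ^ n := by
  have li := hj.leftInvOn_invFunOn
  refine ⟨fun v => Φ (Function.invFunOn w s v), ?_, ?_, ?_, fun n => ?_⟩
  · rw [intervalIntegrable_iff_integrableOn_Ioo_of_le zero_le_one, ← im,
      integrableOn_image_iff_integrableOn_abs_deriv_smul hs hd hj]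
    exact hI.congr_fun (fun x hx => by simp [li hx]) hs
  · rw [← im]
    rintro _ ⟨a, ha, rfl⟩ _ ⟨b, hb, rfl⟩ h
    simpa only [li ha, li hb] using mo a ha b hb h
  · rw [← im]
    rintro _ ⟨a, ha, rfl⟩
    simpa only [li ha] using po a ha
  · rw [intervalIntegral.integral_of_le zero_le_one, integral_Ioc_eq_integral_Ioo, ← im,
      integral_image_eq_integral_abs_deriv_smul hs hd hj]
    exact setIntegral_congr_fun hs fun x hx => by simp [li hx, mul_assoc]

noncomputable def ww (x : ℝ) : ℝ := x * Real.exp ((1 - x ^ 2) / 2)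

lemma ww_d (x : ℝ) : HasDerivAt ww ((1 - x ^ 2) * Real.exp ((1 - x ^ 2) / 2)) x := by
  refine ((hasDerivAt_id x).mul (((hasDerivAt_pow 2 x).const_sub 1).div_const 2).exp).congr_deriv ?_
  simp; ring

lemma ww_c : Continuous ww := by unfold ww; fun_prop

lemma ww_e (x : ℝ) (k : ℕ) : x * ww x ^ (2 * k + 2) =
    Real.exp (k + 1) * (x ^ ((2 * k + 3 : ℕ) : ℝ) * Real.exp (-(k + 1) * x ^ (2 : ℝ))) := by
  rw [ww, mul_pow, ← Real.exp_nat_mul, Real.rpow_natCast, Real.rpow_two, mul_left_comm (Real.exp _), ← Real.exp_add,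
    ← mul_assoc, ← pow_succ']
  congr 2; push_cast; ring

lemma ww_int (k : ℕ) : IntegrableOn (fun x => x * ww x ^ (2 * k + 2)) (Ioi 0) := by
  simp only [ww_e]
  exact (integrableOn_rpow_mul_exp_neg_mul_rpow (lt_of_lt_of_le neg_one_lt_zero (by positivity)) two_pos
    (by positivity)).const_mul _

lemma ww_val (k : ℕ) : ∫ x in Ioi 0, x * ww x ^ (2 * k + 2) =
    Real.exp (k + 1) * (k.factorial / (k + 1) ^ (k + 1) / 2) := by
  simp only [ww_e]
  have k0 : (0 : ℝ) < k + 1 := by positivity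
  rw [integral_const_mul, integral_rpow_mul_exp_neg_mul_rpow two_pos (lt_of_lt_of_le neg_one_lt_zero (by positivity)) k0,
    neg_div, show (((2 * k + 3 : ℕ) : ℝ) + 1) / 2 = (k + 1 : ℕ) + 1 by push_cast; ring, Real.Gamma_nat_eq_factorial,
    Real.rpow_neg k0.le, ← Nat.cast_succ (k + 1), Real.rpow_natCast, Nat.factorial_succ,
    Nat.succ_eq_add_one]
  push_cast
  field_simp
  ring

lemma ww_psi {s : Set ℝ} (hs : MeasurableSet s) (s0 : ∀ x ∈ s, 0 < x ∧ x ≠ 1) (hj : InjOn ww s) (im : ww '' s = Ioo 0 1)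
    (mo : ∀ a ∈ s, ∀ b ∈ s, ww a ≤ ww b → a ^ 2 / |1 - a ^ 2| ≤ b ^ 2 / |1 - b ^ 2|) :
    ∃ ψ : ℝ → ℝ, IntervalIntegrable ψ volume 0 1 ∧ MonotoneOn ψ (Ioo 0 1) ∧ (∀ v ∈ Ioo (0 : ℝ) 1, 0 < ψ v) ∧
      ∀ n : ℕ, ∫ v in (0 : ℝ)..1, ψ v * v ^ (2 * n) = ∫ x in s, x * ww x ^ (2 * n + 2) := by
  have n1 : ∀ x ∈ s, 0 < |1 - x ^ 2| := fun x hx => abs_pos.2 fun h => (s0 x hx).2 (by nlinarith [(s0 x hx).1])
  have wp : ∀ x ∈ s, 0 < ww x := fun x hx => mul_pos (s0 x hx).1 (Real.exp_pos _)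
  have e : ∀ x ∈ s, |(1 - x ^ 2) * Real.exp ((1 - x ^ 2) / 2)| * (ww x * (x ^ 2 / |1 - x ^ 2|)) = x * ww x ^ 2 := by
    intro x hx
    have := n1 x hx
    rw [abs_mul, abs_of_pos (Real.exp_pos _), ww]
    field_simp
  obtain ⟨ψ, a, b, c, d⟩ := push hs (Φ := fun x => ww x * (x ^ 2 / |1 - x ^ 2|))
    (fun x _ => (ww_d x).hasDerivWithinAt) hj im
    (fun a ha b hb h => mul_le_mul h (mo a ha b hb h) (by positivity) (wp b hb).le)
    (fun a ha => mul_pos (wp a ha) (div_pos (pow_pos (s0 a ha).1 2) (n1 a ha)))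
    (((ww_int 0).mono_set fun x hx => (s0 x hx).1).congr_fun (fun x hx => (e x hx).symm) hs)
  refine ⟨ψ, a, b, c, fun n => (d _).trans (setIntegral_congr_fun hs fun x hx => ?_)⟩
  simp only [e x hx]; ring

lemma MS_tree : MS fun k => 4 ^ k * (Real.exp (k + 1) * (k.factorial / (k + 1) ^ (k + 1) / 2)) / (2 * k).factorial *
    k.factorial := by
  have w0 : ww 0 = 0 := by simp [ww]
  have w1 : ww 1 = 1 := by simp [ww]
  have m1 : StrictMonoOn ww (Icc 0 1) := strictMonoOn_of_deriv_pos (convex_Icc _ _) ww_c.continuousOn fun x hx => by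
    rw [interior_Icc] at hx
    rw [(ww_d x).deriv]
    exact mul_pos (by nlinarith [hx.1, hx.2]) (Real.exp_pos _)
  have m2 : StrictAntiOn ww (Ici 1) := strictAntiOn_of_deriv_neg (convex_Ici _) ww_c.continuousOn fun x hx => by
    rw [interior_Ici] at hx
    rw [(ww_d x).deriv]
    exact mul_neg_of_neg_of_pos (by nlinarith [mem_Ioi.1 hx]) (Real.exp_pos _)
  have t0 : Tendsto ww atTop (𝓝 0) := by
    have := (Real.tendsto_pow_mul_exp_neg_atTop_nhds_zero 1).mul_const (Real.exp 1)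
    rw [zero_mul] at this
    refine squeeze_zero' ((eventually_ge_atTop 0).mono fun x hx => mul_nonneg hx (Real.exp_pos _).le)
      ((eventually_ge_atTop 0).mono fun x hx => ?_) this
    rw [pow_one, mul_assoc, ← Real.exp_add]
    exact mul_le_mul_of_nonneg_left (Real.exp_le_exp.2 (by nlinarith [sq_nonneg (x - 1)])) hx
  obtain ⟨f, a, b, c, d⟩ := ww_psi (s := Ioo 0 1) measurableSet_Ioo (fun x hx => ⟨hx.1, hx.2.ne⟩)
    (m1.injOn.mono Ioo_subset_Icc_self)
    (by rw [ww_c.continuousOn.image_Ioo_of_strictMonoOn zero_le_one m1, w0, w1]) fun a ha b hb h => by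
      have h1 := (m1.le_iff_le (Ioo_subset_Icc_self ha) (Ioo_subset_Icc_self hb)).1 h
      have h2 : 0 < 1 - b ^ 2 := by nlinarith [hb.1, hb.2]
      have h3 : a ^ 2 ≤ b ^ 2 := pow_le_pow_left₀ ha.1.le h1 2
      rw [abs_of_pos h2, abs_of_pos (by linarith)]
      exact div_le_div₀ (sq_nonneg _) h3 h2 (by linarith)
  obtain ⟨g, a', b', c', d'⟩ := ww_psi (s := Ioi 1) measurableSet_Ioi (fun x hx => ⟨one_pos.trans hx, hx.out.ne'⟩)
    (m2.injOn.mono Ioi_subset_Ici_self) (subset_antisymm (by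
      rintro _ ⟨x, hx, rfl⟩
      exact ⟨mul_pos (one_pos.trans hx) (Real.exp_pos _), w1 ▸ m2 self_mem_Ici hx.out.le hx⟩)
      (isPreconnected_Ioi.intermediate_value_Ioo (l₁ := atTop) (l₂ := 𝓝[>] 1) (le_principal_iff.2 (Ioi_mem_atTop 1))
        inf_le_right ww_c.continuousOn t0 (ww_c.continuousWithinAt.tendsto.trans_eq (congrArg _ w1)))) fun a ha b hb h => by
      have h1 := (m2.le_iff_ge ha.out.le hb.out.le).1 h
      have h2 : 1 - b ^ 2 < 0 := by nlinarith [hb.out]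
      have h3 : b ^ 2 ≤ a ^ 2 := pow_le_pow_left₀ (one_pos.trans hb).le h1 2
      rw [abs_of_neg h2, abs_of_neg (by linarith), div_le_div_iff₀ (by linarith) (by linarith)]
      nlinarith
  refine (congrArg MS (funext fun k => ?_)).mp (MS_cos (a.add a') (b.add b') fun v hv => add_pos (c v hv) (c' v hv))
  have ic : ∀ {f : ℝ → ℝ}, IntervalIntegrable f volume 0 1 → IntervalIntegrable (fun v => f v * v ^ (2 * k)) volume 0 1 :=
    fun h => h.mul_continuousOn (by fun_prop)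
  simp only [add_mul]
  rw [intervalIntegral.integral_add (ic a) (ic a'), d, d', ← integral_Ioc_eq_integral_Ioo, ← setIntegral_union
    (Ioc_disjoint_Ioi le_rfl) measurableSet_Ioi ((ww_int k).mono_set Ioc_subset_Ioi_self)
    ((ww_int k).mono_set (Ioi_subset_Ioi zero_le_one)), Ioc_union_Ioi_eq_Ioi zero_le_one, ww_val]

open Finset

lemma ev_of {r : ℝ[X]} {d : ℕ} (h : r.natDegree ≤ d) (z : ℂ) :
    aeval z r = ∑ k ∈ range (d + 1), (r.coeff k : ℂ) * z ^ k := by
  rw [aeval_eq_sum_range' (Nat.lt_succ_of_le h)]; simp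

lemma MS_lim {ι : Type} {l : Filter ι} [l.NeBot] {γ : ι → ℕ → ℝ} {δ : ℕ → ℝ} (h : ∀ᶠ i in l, MS (γ i))
    (hc : ∀ k, Tendsto (γ · k) l (𝓝 (δ k))) : MS δ := by
  intro p r hp hr
  have dg : ∀ {c : ℕ → ℝ} {q : ℝ[X]}, (∀ k, q.coeff k = c k * p.coeff k) → q.natDegree ≤ p.natDegree := fun hq =>
    natDegree_le_iff_coeff_eq_zero.2 fun k hk => by rw [hq, coeff_eq_zero_of_natDegree_lt hk, mul_zero]
  have s2 : St p.natDegree fun k => (r.coeff k : ℂ) := by
    refine St_lim (l := l) (c := fun i k => ((γ i k * p.coeff k : ℝ) : ℂ)) (h.mono fun i hi => ?_) fun k => ?_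
    · obtain ⟨q, hq⟩ := exT (γ i) p
      simp only [← hq]
      rcases hi p q hp hq with rfl | h
      · intro u v _; simp
      · exact St_of fun y hy e => hy.ne' (h y (by rwa [ev_of (dg hq)]))
    · rw [hr]
      exact (Complex.continuous_ofReal.tendsto _).comp ((hc k).mul_const _)
  refine RR_of fun z hz e => Polynomial.funext fun x => ?_
  have := s2 z x hz
  rw [← ev_of (dg hr), ← ev_of (dg hr), e, norm_zero, mul_zero, norm_le_zero_iff, ← Complex.coe_algebraMap,
    aeval_algebraMap_apply] at this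
  simpa using this

lemma MS_fact : MS fun k => 1 / k.factorial := by
  refine MS_lim (l := 𝓝[>] (0 : ℝ)) (γ := fun a k => (k + 1) * ((k + 1 : ℝ) ^ (-1 - a) / k.factorial)) ?_ fun k => ?_
  · filter_upwards [Ioo_mem_nhdsGT one_half_pos] with a ha
    exact MS_succ.mul (MS_beta ha.1 ha.2.le)
  · have k0 : (k + 1 : ℝ) ≠ 0 := by positivity
    refine tendsto_nhdsWithin_of_tendsto_nhds (Continuous.tendsto' (continuous_const.mul (Continuous.div_const
      (continuous_const.rpow (by fun_prop) fun _ => .inl k0) _)) _ _ ?_)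
    simp only [Pi.mul_apply, sub_zero, Real.rpow_neg_one]; field_simp

lemma MS_geo {c r : ℝ} (hc : c ≠ 0) (hr : r ≠ 0) : MS fun k => c * r ^ k := by
  intro p q hp hq
  rcases hp with rfl | hp
  · exact .inl (by ext k; simp [hq])
  refine .inr fun z hz => ?_
  rw [show q = C c * p.comp (C r * X) by ext k; rw [hq, coeff_C_mul, comp_C_mul_X_coeff]; ring, map_mul, aeval_C,
    aeval_comp, mul_eq_zero] at hz
  simpa [hr] using hp _ (hz.resolve_left (by simpa using hc))

lemma jen {γ : ℕ → ℝ} (h : MS γ) (h0 : ∀ k, 0 < γ k) :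
    ∃ p : ℕ → ℝ[X], (∀ n (x : ℂ), aeval x (p n) = 0 → x.im = 0 ∧ x.re ≤ 0) ∧
      ∀ k, Tendsto (fun n => (p n).coeff k) atTop (𝓝 (γ k / k.factorial)) := by
  choose p hp using fun n : ℕ => exT γ ((C (n : ℝ)⁻¹ * X + 1) ^ n)
  have co : ∀ n k : ℕ, (p n).coeff k = γ k * (n.choose k * (n : ℝ)⁻¹ ^ k) := fun n k => by
    rw [hp, show (C (n : ℝ)⁻¹ * X + 1) ^ n = ((X + 1) ^ n).comp (C (n : ℝ)⁻¹ * X) by simp, comp_C_mul_X_coeff,
      coeff_X_add_one_pow]
  refine ⟨p, fun n x hx => ?_, fun k => ?_⟩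
  · have xi : x.im = 0 := by
      refine (h _ _ (.inr fun z hz => ?_) (hp n)).resolve_left (fun e => (h0 0).ne' ?_) x hx
      · rcases n.eq_zero_or_pos with rfl | n0
        · simp at hz
        have : (n : ℂ) ≠ 0 := by exact_mod_cast n0.ne'
        simp only [map_pow, map_add, map_mul, aeval_C, aeval_X, map_one, pow_eq_zero_iff n0.ne',
          Complex.coe_algebraMap, Complex.ofReal_inv, Complex.ofReal_natCast] at hz
        rw [show z = -n by field_simp at hz; linear_combination hz]; simp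
      · simpa [e] using (co n 0).symm
    refine ⟨xi, not_lt.1 fun h1 => ?_⟩
    rw [show x = x.re from Complex.ext rfl (by simpa using xi), ev_of le_rfl] at hx
    have hx : ∑ k ∈ range ((p n).natDegree + 1), (p n).coeff k * x.re ^ k = 0 := by exact_mod_cast hx
    refine absurd hx (sum_pos' (fun k _ => ?_) ⟨0, by simp, by simpa [co] using h0 0⟩).ne'
    have := h0 k
    rw [co]; positivity
  · have := ProbabilityTheory.tendsto_choose_mul_pow_atTop (p := fun n => (n : ℝ)⁻¹) (r := 1) k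
      (tendsto_const_nhds.congr' ((eventually_gt_atTop 0).mono fun n hn =>
        (mul_inv_cancel₀ (by exact_mod_cast hn.ne')).symm))
    simpa [co, div_eq_mul_inv] using this.const_mul (γ k)

lemma MS_cb : MS fun k => (2 * k).choose k / k.factorial := by
  obtain ⟨p, h1, h2⟩ := jen MS_fact fun k => by positivity
  refine ms (q := fun n => p n * p n) (fun n x hx => h1 n x (by simpa using hx)) fun k => ?_
  simp only [coeff_mul]
  refine (tendsto_finsetSum _ fun x _ => (h2 x.1).mul (h2 x.2)).trans_eq (congrArg _ ?_)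
  rw [← Nat.sum_range_choose_sq, Nat.sum_antidiagonal_eq_sum_range_succ_mk, Nat.cast_sum, sum_div, sum_div]
  refine sum_congr rfl fun i hi => ?_
  rw [Nat.cast_pow, Nat.cast_choose ℝ (Nat.lt_succ_iff.1 (mem_range.1 hi))]
  field_simp

theorem MS_fin : MS fun k => 1 / ((k + 1) ^ (k + 1) * k.factorial) := by
  refine (congrArg MS (funext fun k => ?_)).mp ((MS_geo (c := 2 / Real.exp 1) (r := (4 * Real.exp 1)⁻¹) (by positivity)
    (by positivity)).mul (MS_tree.mul MS_cb))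
  rw [Nat.cast_choose ℝ (by omega), show 2 * k - k = k by omega, Real.exp_add, ← Real.exp_one_pow k, inv_pow, mul_pow]
  field_simp

end Pool.Agent.H.MP_dd1f31_an
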